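import Pool.Agent.R598.IO.Main

/-!
# The structure whose theory interprets both theories
-/

set_option autoImplicit false

namespace Pool.Agent.R598.IO

open FirstOrder FirstOrder.Language Cardinal

/-- The vocabulary of the symbols that describe a structure for the vocabulary `K`. -/
abbrev LA (K : FirstOrder.Language.{0, 0}) : FirstOrder.Language.{0, 0} := ⟨fun _ => Empty, Sy K⟩

/-- The vocabulary of numbers and sequences. -/
abbrev LC : FirstOrder.Language.{0, 0} := ⟨fun _ => Empty, SC⟩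

/-- The structure read off from the relations. -/
@[reducible]
noncomputable def mkStr {K L : FirstOrder.Language.{0, 0}} (ι : ∀ {n : ℕ}, Sy K n → L.Relations n)
    {M : Type} [L.Structure M] {D : M → Prop} (hD : ∀ a, D a ↔ Dm (@ι) M a)
    (hfn : ∀ (n : ℕ) (f : K.Functions n) (z : Fin n → M), (∀ i, Dm (@ι) M (z i)) →
      ∃ y, (Dm (@ι) M y ∧ Structure.RelMap (ι (Sy.fn f)) (Fin.snoc z y : Fin _ → M)) ∧
        ∀ y', (Dm (@ι) M y' ∧ Structure.RelMap (ι (Sy.fn f)) (Fin.snoc z y' : Fin _ → M)) →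
          y' = y) : K.Structure {a // D a} where
  funMap := fun {n} f x => ⟨(hfn n f (fun i => (x i).1) fun i => (hD _).1 (x i).2).choose,
    (hD _).2 (hfn n f (fun i => (x i).1) fun i => (hD _).1 (x i).2).choose_spec.1.1⟩
  RelMap := fun {_} R x => Structure.RelMap (ι (Sy.rel R)) fun i => (x i).1

theorem mkStr_match {K L : FirstOrder.Language.{0, 0}} (ι : ∀ {n : ℕ}, Sy K n → L.Relations n)
    {M : Type} [L.Structure M] {D : M → Prop} (hD : ∀ a, D a ↔ Dm (@ι) M a)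
    (hfn : ∀ (n : ℕ) (f : K.Functions n) (z : Fin n → M), (∀ i, Dm (@ι) M (z i)) →
      ∃ y, (Dm (@ι) M y ∧ Structure.RelMap (ι (Sy.fn f)) (Fin.snoc z y : Fin _ → M)) ∧
        ∀ y', (Dm (@ι) M y' ∧ Structure.RelMap (ι (Sy.fn f)) (Fin.snoc z y' : Fin _ → M)) →
          y' = y) :
    letI := mkStr (@ι) hD hfn
    Match (D := D) (@ι) := by
  letI := mkStr (@ι) hD hfn
  refine ⟨fun R x => Iff.rfl, fun {n} f x y => ?_⟩
  have h := (hfn n f (fun i => (x i).1) fun i => (hD _).1 (x i).2).choose_spec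
  constructor
  · rintro rfl
    exact h.1.2
  · intro h1
    exact Subtype.ext (h.2 y.1 ⟨(hD _).1 y.2, h1⟩).symm

/-- The truth of formulas when the domain is the range of a map. -/
theorem range_fm {K L : FirstOrder.Language.{0, 0}} (ι : ∀ {n : ℕ}, Sy K n → L.Relations n)
    {U N : Type} [L.Structure U] [K.Structure N] {e : N → U} (he : Function.Injective e)
    (hdm : ∀ a, Dm (@ι) U a ↔ ∃ b, e b = a)
    (hrel : ∀ {n : ℕ} (R : K.Relations n) (x : Fin n → N), Structure.RelMap R x ↔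
      Structure.RelMap (ι (Sy.rel R)) fun i => e (x i))
    (hfn : ∀ {n : ℕ} (f : K.Functions n) (x : Fin n → N) (y : N), Structure.funMap f x = y ↔
      Structure.RelMap (ι (Sy.fn f)) (Fin.snoc (fun i => e (x i)) (e y) : Fin _ → U))
    {α : Type} (φ : K.Formula α) (v : α → N) :
    fm (@ι) U φ (fun a => e (v a)) Fin.elim0 ↔ φ.Realize v := by
  classical
  let E : N ≃ {a // a ∈ Set.range e} := Equiv.ofInjective e he
  have hE : ∀ x, (E x).1 = e x := fun x => rfl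
  have hE' : ∀ x, e (E.symm x) = x.1 := fun x => by rw [← hE, E.apply_symm_apply]
  letI : K.Structure {a // a ∈ Set.range e} := E.inducedStructure
  have hm : Match (D := fun a => a ∈ Set.range e) (@ι) := by
    refine ⟨fun {n} R x => ?_, fun {n} f x y => ?_⟩
    · change Structure.RelMap R (E.symm ∘ x) ↔ _
      rw [hrel]
      have h1 : (fun i => e ((E.symm ∘ x) i)) = fun i => (x i).1 := by
        funext i
        exact hE' _
      rw [h1]
    · change E (Structure.funMap f (E.symm ∘ x)) = y ↔ _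
      rw [← Equiv.eq_symm_apply, hfn]
      have h1 : (fun i => e ((E.symm ∘ x) i)) = fun i => (x i).1 := by
        funext i
        exact hE' _
      rw [h1, hE']
  have hD : ∀ a, a ∈ Set.range e ↔ Dm (@ι) U a := fun a => (hdm a).symm
  have h := fm0_iff (@ι) (D := fun a => a ∈ Set.range e) hD @hm φ fun a => E (v a)
  refine h.trans ?_
  exact StrongHomClass.realize_formula (Equiv.inducedStructureEquiv (L := K) E) φ

section

variable (L₀ L₁ : FirstOrder.Language.{0, 0})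

/-- The vocabulary. -/
abbrev LL : FirstOrder.Language.{0, 0} := ((LA L₀).sum (LA L₁)).sum LC

variable {L₀ L₁}

/-- The symbols of the first part. -/
def ι₀ {n : ℕ} (s : Sy L₀ n) : (LL L₀ L₁).Relations n := Sum.inl (Sum.inl s)

/-- The symbols of the second part. -/
def ι₁ {n : ℕ} (s : Sy L₁ n) : (LL L₀ L₁).Relations n := Sum.inl (Sum.inr s)

/-- The other symbols. -/
def ι₂ {n : ℕ} (s : SC n) : (LL L₀ L₁).Relations n := Sum.inr s

end

/-- The universe: elements of both structures, natural numbers, sequences of elements. -/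
inductive Un (N0 N1 : Type) : Type
  | p0 : N0 → Un N0 N1
  | p1 : N1 → Un N0 N1
  | num : ℕ → Un N0 N1
  | c0 : (ℕ → N0) → Un N0 N1
  | c1 : (ℕ → N1) → Un N0 N1

/-- The structure on a set that contains a copy of a structure. -/
@[reducible]
def strA {K : FirstOrder.Language.{0, 0}} {N U : Type} [K.Structure N] (e : N → U) :
    (LA K).Structure U where
  funMap := fun {_} f _ => nomatch f
  RelMap := fun {n} (r : Sy K n) => match n, r with
    | _, .dom => fun x => ∃ a, e a = x 0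
    | _, .rel R => fun x => ∃ z : Fin _ → N, x = (fun i => e (z i)) ∧ Structure.RelMap R z
    | _, .fn f => fun x => ∃ z : Fin _ → N,
      x = (Fin.snoc (fun i => e (z i)) (e (Structure.funMap f z)) : Fin _ → U)

variable {L₀ L₁ : FirstOrder.Language.{0, 0}} {N0 N1 : Type} [L₀.Structure N0] [L₁.Structure N1]

instance strUn0 : (LA L₀).Structure (Un N0 N1) := strA Un.p0

instance strUn1 : (LA L₁).Structure (Un N0 N1) := strA Un.p1

instance strUnC {N0 N1 : Type} : LC.Structure (Un N0 N1) where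
  funMap := fun {_} f _ => nomatch f
  RelMap := fun {n} (r : SC n) => match n, r with
    | _, .num => fun x => ∃ k, x 0 = Un.num k
    | _, .lt => fun x => ∃ k l, k < l ∧ x 0 = Un.num k ∧ x 1 = Un.num l
    | _, .ev => fun x => (∃ f k, x 0 = Un.c0 f ∧ x 1 = Un.num k ∧ x 2 = Un.p0 (f k)) ∨
        ∃ f k, x 0 = Un.c1 f ∧ x 1 = Un.num k ∧ x 2 = Un.p1 (f k)

theorem strA_rel {K : FirstOrder.Language.{0, 0}} {N U : Type} [K.Structure N] {e : N → U}
    (he : Function.Injective e) {n : ℕ} (R : K.Relations n) (x : Fin n → N) :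
    Structure.RelMap R x ↔ (strA e : (LA K).Structure U).RelMap (Sy.rel R) fun i => e (x i) := by
  constructor
  · intro h
    exact ⟨x, rfl, h⟩
  · rintro ⟨z, h1, h2⟩
    have h3 : x = z := by
      funext i
      exact he (congrFun h1 i)
    rw [h3]
    exact h2

theorem snoc_inj {n : ℕ} {U : Type} {x x' : Fin n → U} {y y' : U}
    (h : (Fin.snoc x y : Fin _ → U) = Fin.snoc x' y') : x = x' ∧ y = y' := by
  constructor
  · funext i
    have h1 := congrFun h i.castSucc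
    simpa using h1
  · have h1 := congrFun h (Fin.last n)
    simpa using h1

theorem strA_fn {K : FirstOrder.Language.{0, 0}} {N U : Type} [K.Structure N] {e : N → U}
    (he : Function.Injective e) {n : ℕ} (f : K.Functions n) (x : Fin n → N) (y : N) :
    Structure.funMap f x = y ↔ (strA e : (LA K).Structure U).RelMap (Sy.fn f)
      (Fin.snoc (fun i => e (x i)) (e y) : Fin _ → U) := by
  constructor
  · rintro rfl
    exact ⟨x, rfl⟩
  · rintro ⟨z, h1⟩
    obtain ⟨h2, h3⟩ := snoc_inj h1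
    have h4 : x = z := by
      funext i
      exact he (congrFun h2 i)
    rw [h4]
    exact (he h3).symm

theorem strA_total {K : FirstOrder.Language.{0, 0}} {N U : Type} [K.Structure N] {e : N → U}
    (he : Function.Injective e) {n : ℕ} (f : K.Functions n) (z : Fin n → U)
    (hz : ∀ i, ∃ a, e a = z i) :
    ∃ y, ((∃ a, e a = y) ∧ (strA e : (LA K).Structure U).RelMap (Sy.fn f)
      (Fin.snoc z y : Fin _ → U)) ∧
      ∀ y', ((∃ a, e a = y') ∧ (strA e : (LA K).Structure U).RelMap (Sy.fn f)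
        (Fin.snoc z y' : Fin _ → U)) → y' = y := by
  choose x hx using hz
  have hx' : z = fun i => e (x i) := by
    funext i
    exact (hx i).symm
  subst hx'
  refine ⟨e (Structure.funMap f x), ⟨⟨_, rfl⟩, (strA_fn he f x _).1 rfl⟩, ?_⟩
  rintro _ ⟨⟨a, rfl⟩, h⟩
  rw [(strA_fn he f x a).2 h]

theorem p0_inj : Function.Injective (Un.p0 : N0 → Un N0 N1) := fun _ _ h => Un.p0.inj h

theorem p1_inj : Function.Injective (Un.p1 : N1 → Un N0 N1) := fun _ _ h => Un.p1.inj h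

theorem fm0_un {α : Type} (φ : L₀.Formula α) (v : α → N0) :
    fm (@ι₀ L₀ L₁) (Un N0 N1) φ (fun a => Un.p0 (v a)) Fin.elim0 ↔ φ.Realize v :=
  range_fm (@ι₀ L₀ L₁) p0_inj (fun _ => Iff.rfl) (fun R x => strA_rel p0_inj R x)
    (fun f x y => strA_fn p0_inj f x y) φ v

theorem fm1_un {α : Type} (φ : L₁.Formula α) (v : α → N1) :
    fm (@ι₁ L₀ L₁) (Un N0 N1) φ (fun a => Un.p1 (v a)) Fin.elim0 ↔ φ.Realize v :=
  range_fm (@ι₁ L₀ L₁) p1_inj (fun _ => Iff.rfl) (fun R x => strA_rel p1_inj R x)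
    (fun f x y => strA_fn p1_inj f x y) φ v

theorem nm_un {x : Un N0 N1} : Nm (@ι₂ L₀ L₁) (Un N0 N1) x ↔ ∃ k, x = Un.num k := Iff.rfl

theorem lt_un {x y : Un N0 N1} : Lt (@ι₂ L₀ L₁) (Un N0 N1) x y ↔
    ∃ k l, k < l ∧ x = Un.num k ∧ y = Un.num l := Iff.rfl

theorem ev_un {s x y : Un N0 N1} : Ev (@ι₂ L₀ L₁) (Un N0 N1) s x y ↔
    (∃ f k, s = Un.c0 f ∧ x = Un.num k ∧ y = Un.p0 (f k)) ∨
      ∃ f k, s = Un.c1 f ∧ x = Un.num k ∧ y = Un.p1 (f k) := Iff.rfl

theorem dm0_un {x : Un N0 N1} : Dm (@ι₀ L₀ L₁) (Un N0 N1) x ↔ ∃ a, Un.p0 a = x := Iff.rfl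

theorem dm1_un {x : Un N0 N1} : Dm (@ι₁ L₀ L₁) (Un N0 N1) x ↔ ∃ a, Un.p1 a = x := Iff.rfl

theorem lt_num {k l : ℕ} : Lt (@ι₂ L₀ L₁) (Un N0 N1) (Un.num k) (Un.num l) ↔ k < l := by
  rw [lt_un]
  constructor
  · rintro ⟨k', l', h1, h2, h3⟩
    rw [Un.num.inj h2, Un.num.inj h3]
    exact h1
  · intro h
    exact ⟨k, l, h, rfl, rfl⟩

theorem cod_un {s : Un N0 N1} : Cod (@ι₀ L₀ L₁) (@ι₂ L₀ L₁) (Un N0 N1) s ↔
    ∃ f, s = Un.c0 f := by
  constructor
  · intro h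
    obtain ⟨z, h1, h2⟩ := h (Un.num 0) (nm_un.2 ⟨0, rfl⟩)
    obtain ⟨a, rfl⟩ := dm0_un.1 h1
    rcases ev_un.1 h2 with ⟨f, k, h3, -, -⟩ | ⟨f, k, -, -, h3⟩
    · exact ⟨f, h3⟩
    · exact absurd h3 (by simp)
  · rintro ⟨f, rfl⟩ j hj
    obtain ⟨k, rfl⟩ := nm_un.1 hj
    exact ⟨Un.p0 (f k), dm0_un.2 ⟨_, rfl⟩, ev_un.2 (Or.inl ⟨f, k, rfl, rfl, rfl⟩)⟩

theorem good_un [Nonempty N0] [Nonempty N1] {T₀ : L₀.Theory} {T₁ : L₁.Theory} (h0 : N0 ⊨ T₀)
    (h1 : N1 ⊨ T₁) {m n : ℕ} (ψ : L₁.Formula (Fin m ⊕ Fin n)) (a : ℕ → Fin m → N1)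
    (b : ℕ → Fin n → N1) (hab : ∀ i j, ψ.Realize (Sum.elim (a i) (b j)) ↔ i < j) :
    GoodStr (@ι₀ L₀ L₁) (@ι₁ L₀ L₁) (@ι₂ L₀ L₁) T₀ T₁ ψ (Un N0 N1) where
  irr := by
    intro x h
    obtain ⟨k, l, h1, h2, h3⟩ := lt_un.1 h
    have := Un.num.inj (h2.symm.trans h3)
    omega
  trans := by
    intro x y z h h'
    obtain ⟨k, l, h1, rfl, rfl⟩ := lt_un.1 h
    obtain ⟨k', l', h1', h2', rfl⟩ := lt_un.1 h'
    have := Un.num.inj h2'
    exact lt_num.2 (by omega)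
  tot := by
    intro x y hx hy
    obtain ⟨k, rfl⟩ := nm_un.1 hx
    obtain ⟨l, rfl⟩ := nm_un.1 hy
    rcases lt_trichotomy k l with h | rfl | h
    · exact Or.inl (lt_num.2 h)
    · exact Or.inr (Or.inl rfl)
    · exact Or.inr (Or.inr (lt_num.2 h))
  ltn := by
    intro x y h
    obtain ⟨k, l, h1, rfl, rfl⟩ := lt_un.1 h
    exact ⟨nm_un.2 ⟨k, rfl⟩, nm_un.2 ⟨l, rfl⟩⟩
  zero := by
    refine ⟨Un.num 0, nm_un.2 ⟨0, rfl⟩, fun y h => ?_⟩
    obtain ⟨k, l, h1, rfl, h2⟩ := lt_un.1 h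
    have := Un.num.inj h2
    omega
  succ := by
    intro x hx
    obtain ⟨k, rfl⟩ := nm_un.1 hx
    refine ⟨Un.num (k + 1), lt_num.2 (Nat.lt_succ_self k), fun z hz => ?_⟩
    obtain ⟨k', l, h1, rfl, h2⟩ := lt_un.1 hz
    have h3 := Un.num.inj h2
    rcases Nat.lt_succ_iff_lt_or_eq.1 (h3 ▸ h1 : k' < k + 1) with h4 | rfl
    · exact Or.inl (lt_num.2 h4)
    · exact Or.inr rfl
  pred := by
    rintro x ⟨y, hy⟩
    obtain ⟨k, l, h1, rfl, rfl⟩ := lt_un.1 hy
    obtain ⟨l, rfl⟩ : ∃ l', l = l' + 1 := ⟨l - 1, by omega⟩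
    refine ⟨Un.num l, lt_num.2 (Nat.lt_succ_self l), fun z hz => ?_⟩
    obtain ⟨k', l', h1', rfl, h2⟩ := lt_un.1 hz
    have h3 := Un.num.inj h2
    rcases Nat.lt_succ_iff_lt_or_eq.1 (h3 ▸ h1' : k' < l + 1) with h4 | rfl
    · exact Or.inl (lt_num.2 h4)
    · exact Or.inr rfl
  lnp := by
    classical
    rintro α _ R hR v ⟨j, hj, hj'⟩
    obtain ⟨k, rfl⟩ := nm_un.1 hj
    have hex : ∃ k : ℕ, R (Un N0 N1) (Sum.elim v fun _ => Un.num k) := ⟨k, hj'⟩
    refine ⟨Un.num (Nat.find hex), ⟨nm_un.2 ⟨_, rfl⟩, Nat.find_spec hex⟩, fun i hi => ?_⟩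
    obtain ⟨k', l', h1, rfl, h2⟩ := lt_un.1 hi
    exact Nat.find_min hex (by
      rw [Un.num.inj h2]
      exact h1)
  evf := by
    intro s i y z h h'
    rcases ev_un.1 h with ⟨f, k, rfl, rfl, rfl⟩ | ⟨f, k, rfl, rfl, rfl⟩
    · rcases ev_un.1 h' with ⟨f', k', h1, h2, rfl⟩ | ⟨f', k', h1, -, -⟩
      · rw [Un.c0.inj h1, Un.num.inj h2]
      · exact absurd h1 (by simp)
    · rcases ev_un.1 h' with ⟨f', k', h1, -, -⟩ | ⟨f', k', h1, h2, rfl⟩
      · exact absurd h1 (by simp)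
      · rw [Un.c1.inj h1, Un.num.inj h2]
  cod0 := by
    obtain ⟨x⟩ := ‹Nonempty N0›
    exact ⟨Un.c0 fun _ => x, cod_un.2 ⟨_, rfl⟩⟩
  modi := by
    classical
    intro s i y hs hi hy
    obtain ⟨f, rfl⟩ := cod_un.1 hs
    obtain ⟨k, rfl⟩ := nm_un.1 hi
    obtain ⟨c, rfl⟩ := dm0_un.1 hy
    refine ⟨Un.c0 (Function.update f k c), cod_un.2 ⟨_, rfl⟩,
      ev_un.2 (Or.inl ⟨_, k, rfl, rfl, by rw [Function.update_self]⟩), fun j hj z hz => ?_⟩
    rcases ev_un.1 hz with ⟨f', k', h1, rfl, rfl⟩ | ⟨f', k', h1, -, -⟩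
    · refine ev_un.2 (Or.inl ⟨_, k', rfl, rfl, ?_⟩)
      rw [Function.update_of_ne (fun h => hj (by rw [h])), Un.c0.inj h1]
    · exact absurd h1 (by simp)
  ord := by
    refine ⟨fun l => Un.c1 fun i => a i l, fun l => Un.c1 fun i => b i l, fun i j hi hj => ?_⟩
    obtain ⟨k, rfl⟩ := nm_un.1 hi
    obtain ⟨k', rfl⟩ := nm_un.1 hj
    refine ⟨fun l => Un.p1 (a k l), fun l => Un.p1 (b k' l), fun l => ⟨dm1_un.2 ⟨_, rfl⟩,
      ev_un.2 (Or.inr ⟨_, k, rfl, rfl, rfl⟩)⟩, fun l => ⟨dm1_un.2 ⟨_, rfl⟩,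
      ev_un.2 (Or.inr ⟨_, k', rfl, rfl, rfl⟩)⟩, ?_⟩
    rw [lt_num, ← hab, ← fm1_un (N0 := N0) (L₀ := L₀)]
    have h2 : (fun s => Un.p1 ((Sum.elim (a k) (b k')) s) : Fin m ⊕ Fin n → Un N0 N1) =
        Sum.elim (fun l => Un.p1 (a k l)) fun l => Un.p1 (b k' l) := by
      funext s
      cases s <;> rfl
    rw [h2]
  ne0 := by
    obtain ⟨x⟩ := ‹Nonempty N0›
    exact ⟨Un.p0 x, dm0_un.2 ⟨_, rfl⟩⟩
  ne1 := by
    obtain ⟨x⟩ := ‹Nonempty N1›
    exact ⟨Un.p1 x, dm1_un.2 ⟨_, rfl⟩⟩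
  fn0 := fun n f z hz => strA_total p0_inj f z hz
  fn1 := fun n f z hz => strA_total p1_inj f z hz
  th0 := by
    intro σ hσ
    have h2 := (fm0_un (N1 := N1) (L₁ := L₁) (σ : L₀.Formula Empty) default).2
      (h0.realize_of_mem σ hσ)
    have h3 : (fun a => Un.p0 ((default : Empty → N0) a) : Empty → Un N0 N1) = Empty.elim :=
      Subsingleton.elim _ _
    rw [h3] at h2
    exact h2
  th1 := by
    intro σ hσ
    have h2 := (fm1_un (N0 := N0) (L₀ := L₀) (σ : L₁.Formula Empty) default).2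
      (h1.realize_of_mem σ hσ)
    have h3 : (fun a => Un.p1 ((default : Empty → N1) a) : Empty → Un N0 N1) = Empty.elim :=
      Subsingleton.elim _ _
    rw [h3] at h2
    exact h2

end Pool.Agent.R598.IO
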