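import Mathlib

/-!
# The interpretability order on theories, for aleph_1-saturated models
-/

set_option autoImplicit false

namespace Pool.Agent.R598.IO

open FirstOrder FirstOrder.Language Cardinal

/-- A tuple of formulas of the vocabulary `L'`: one for equality, one for each relation symbol and
one for the graph of each function symbol of the vocabulary `L`. -/
structure Tup (L L' : FirstOrder.Language.{0, 0}) where
  /-- The formula for equality. -/
  eq : L'.Formula (Fin 2)
  /-- The formulas for the relation symbols. -/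
  rel : ∀ {n : ℕ}, L.Relations n → L'.Formula (Fin n)
  /-- The formulas for the graphs of the functions. -/
  fn : ∀ {n : ℕ}, L.Functions n → L'.Formula (Fin (n + 1))

/-- The domain of the structure defined by the tuple `φ` in the structure `M`. -/
abbrev Tup.Dom {L L' : FirstOrder.Language.{0, 0}} (φ : Tup L L') (M : Type) [L'.Structure M] :
    Type := {a : M // φ.eq.Realize ![a, a]}

/-- The structure `S` on the domain is the one defined by the tuple `φ` in the structure `M`. -/
def Tup.Defines {L L' : FirstOrder.Language.{0, 0}} (φ : Tup L L') (M : Type) [L'.Structure M]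
    (S : L.Structure (φ.Dom M)) : Prop :=
  (∀ {n : ℕ} (R : L.Relations n) (x : Fin n → φ.Dom M),
    S.RelMap R x ↔ (φ.rel R).Realize fun i => (x i).1) ∧
  ∀ {n : ℕ} (f : L.Functions n) (x : Fin n → φ.Dom M) (y : φ.Dom M),
    S.funMap f x = y ↔ (φ.fn f).Realize (Fin.snoc (fun i => (x i).1) y.1 : Fin _ → M)

/-- The structure `M` is `κ`-saturated: each set `p` of formulas in finitely many variables with
parameters from a set `A` of less than `κ` elements is realized in `M` if each finite subset of
`p` is realized in `M`. -/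
def IsSat (κ : Cardinal.{0}) (L : FirstOrder.Language.{0, 0}) (M : Type) [L.Structure M] : Prop :=
  ∀ (n : ℕ) (A : Set M), #A < κ → ∀ p : Set (L.Formula (A ⊕ Fin n)),
    (∀ s : Set (L.Formula (A ⊕ Fin n)), s.Finite → s ⊆ p →
      ∃ x : Fin n → M, ∀ φ ∈ s, φ.Realize (Sum.elim Subtype.val x)) →
    ∃ x : Fin n → M, ∀ φ ∈ p, φ.Realize (Sum.elim Subtype.val x)

/-- The theory is unstable: some formula has the order property in some model. -/
def Unstable {L : FirstOrder.Language.{0, 0}} (T : L.Theory) : Prop :=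
  ∃ (m n : ℕ) (φ : L.Formula (Fin m ⊕ Fin n)) (M : Theory.ModelType.{0, 0, 0} T)
    (a : ℕ → Fin m → M) (b : ℕ → Fin n → M),
    ∀ i j, φ.Realize (Sum.elim (a i) (b j)) ↔ i < j

/-- The order on theories: `T₀` is below `T₁` if for all sufficiently large regular cardinals
`lam` some complete theory `T` in a countable vocabulary with disjoint parts `A` and `B`
interprets `T₀` by formulas of `A` and `T₁` by formulas of `B`, and for each `ℵ₁`-saturated model
of `T`, if the interpreted model of `T₁` is `lam`-saturated then the interpreted model of `T₀` is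
`lam`-saturated. -/
def LeStar {L₀ L₁ : FirstOrder.Language.{0, 0}} (T₀ : L₀.Theory) (T₁ : L₁.Theory) : Prop :=
  ∃ μ : Cardinal.{0}, ∀ lam : Cardinal.{0}, μ ≤ lam → lam.IsRegular →
    ∃ (A B C : FirstOrder.Language.{0, 0}) (T : ((A.sum B).sum C).Theory)
      (φ₀ : Tup L₀ A) (φ₁ : Tup L₁ B), A.card ≤ ℵ₀ ∧ B.card ≤ ℵ₀ ∧ C.card ≤ ℵ₀ ∧ T.IsComplete ∧
      ∀ (M : Type) [Nonempty M] [A.Structure M] [B.Structure M] [C.Structure M], M ⊨ T →
        ∃ (S₀ : L₀.Structure (φ₀.Dom M)) (S₁ : L₁.Structure (φ₁.Dom M)),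
          φ₀.Defines M S₀ ∧ φ₁.Defines M S₁ ∧ Nonempty (φ₀.Dom M) ∧ Nonempty (φ₁.Dom M) ∧
          φ₀.Dom M ⊨ T₀ ∧ φ₁.Dom M ⊨ T₁ ∧
          (IsSat ℵ₁ ((A.sum B).sum C) M → IsSat lam L₁ (φ₁.Dom M) → IsSat lam L₀ (φ₀.Dom M))

end Pool.Agent.R598.IO
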