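import Pool.Agent.R598.IO.Base

/-!
# Stable theories are below unstable theories
-/

set_option autoImplicit false

namespace Pool.Agent.R598.IO

open FirstOrder FirstOrder.Language Cardinal

theorem card_LA {K : FirstOrder.Language.{0, 0}} (hK : K.card ≤ ℵ₀) : (LA K).card ≤ ℵ₀ := by
  have : Countable K.Symbols := mk_le_aleph0_iff.1 hK
  let f : (LA K).Symbols → Option K.Symbols := fun s => match s with
    | Sum.inl ⟨_, e⟩ => nomatch e
    | Sum.inr ⟨_, .dom⟩ => none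
    | Sum.inr ⟨_, .rel R⟩ => some (Sum.inr ⟨_, R⟩)
    | Sum.inr ⟨_, .fn g⟩ => some (Sum.inl ⟨_, g⟩)
  have hf : Function.Injective f := by
    rintro (⟨n, e⟩ | ⟨n, s⟩) (⟨n', e'⟩ | ⟨n', s'⟩) h
    · exact nomatch e
    · exact nomatch e
    · exact nomatch e'
    · cases s with
      | dom =>
        cases s' with
        | dom => rfl
        | rel R => exact nomatch h
        | fn g => exact nomatch h
      | rel R =>
        cases s' with
        | dom => exact nomatch h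
        | rel R' =>
          obtain ⟨h1, h2⟩ := Sigma.mk.inj (Sum.inr.inj (Option.some.inj h))
          subst h1
          rw [eq_of_heq h2]
        | fn g => exact nomatch (Option.some.inj h)
      | fn g =>
        cases s' with
        | dom => exact nomatch h
        | rel R' => exact nomatch (Option.some.inj h)
        | fn g' =>
          obtain ⟨h1, h2⟩ := Sigma.mk.inj (Sum.inl.inj (Option.some.inj h))
          subst h1
          rw [eq_of_heq h2]
  have : Countable (LA K).Symbols := hf.countable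
  exact mk_le_aleph0

theorem card_LC : LC.card ≤ ℵ₀ := by
  let f : LC.Symbols → ℕ := fun s => match s with
    | Sum.inl ⟨_, e⟩ => nomatch e
    | Sum.inr ⟨_, .num⟩ => 0
    | Sum.inr ⟨_, .lt⟩ => 1
    | Sum.inr ⟨_, .ev⟩ => 2
  have hf : Function.Injective f := by
    rintro (⟨n, e⟩ | ⟨n, s⟩) (⟨n', e'⟩ | ⟨n', s'⟩) h
    · exact nomatch e
    · exact nomatch e
    · exact nomatch e'
    · cases s <;> cases s' <;> first | rfl | exact nomatch h
  have : Countable LC.Symbols := hf.countable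
  exact mk_le_aleph0

/-- The interpretation. -/
def tupOf (K : FirstOrder.Language.{0, 0}) : Tup K (LA K) where
  eq := Relations.formula (L := LA K) (Sy.dom : Sy K 1) (fun _ => Term.var 0) ⊓
    (Term.var 0).equal (Term.var 1)
  rel := fun R => Relations.formula (L := LA K) (Sy.rel R) Term.var
  fn := fun f => Relations.formula (L := LA K) (Sy.fn f) Term.var

theorem tupOf_eq {K : FirstOrder.Language.{0, 0}} {M : Type} [(LA K).Structure M] (a : M) :
    (tupOf K).eq.Realize ![a, a] ↔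
      Structure.RelMap (L := LA K) (Sy.dom : Sy K 1) fun _ => a := by
  change (_ ⊓ _ : (LA K).Formula (Fin 2)).Realize ![a, a] ↔ _
  rw [Formula.realize_inf, Formula.realize_rel, Formula.realize_equal]
  exact and_iff_left rfl

theorem tupOf_rel {K : FirstOrder.Language.{0, 0}} {M : Type} [(LA K).Structure M] {n : ℕ}
    (R : K.Relations n) (x : Fin n → M) : ((tupOf K).rel R).Realize x ↔
      Structure.RelMap (L := LA K) (Sy.rel R) x := by
  change (Relations.formula (L := LA K) (Sy.rel R) Term.var).Realize x ↔ _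
  rw [Formula.realize_rel]
  exact Iff.rfl

theorem tupOf_fn {K : FirstOrder.Language.{0, 0}} {M : Type} [(LA K).Structure M] {n : ℕ}
    (f : K.Functions n) (x : Fin (n + 1) → M) : ((tupOf K).fn f).Realize x ↔
      Structure.RelMap (L := LA K) (Sy.fn f) x := by
  change (Relations.formula (L := LA K) (Sy.fn f) Term.var).Realize x ↔ _
  rw [Formula.realize_rel]
  exact Iff.rfl

section

variable {K₀ K₁ : FirstOrder.Language.{0, 0}} {L : FirstOrder.Language.{0, 0}}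

theorem models_of {K : FirstOrder.Language.{0, 0}} (ι : ∀ {n : ℕ}, Sy K n → L.Relations n)
    {M : Type} [L.Structure M] {D : M → Prop} (hD : ∀ a, D a ↔ Dm (@ι) M a)
    [K.Structure {a // D a}] (hm : Match (D := D) (@ι)) {T : K.Theory}
    (hT : ∀ σ ∈ T, fm (@ι) M (σ : K.Formula Empty) Empty.elim Fin.elim0) : {a // D a} ⊨ T := by
  refine ⟨fun σ hσ => ?_⟩
  refine (fm0_iff (@ι) hD @hm σ default).1 ?_
  have h3 : (fun a => ((default : Empty → {a // D a}) a).1 : Empty → M) = Empty.elim :=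
    Subsingleton.elim _ _
  rw [h3]
  exact hT σ hσ

end

theorem leStar {L₀ L₁ : FirstOrder.Language.{0, 0}} (h₀ : L₀.card ≤ ℵ₀) (h₁ : L₁.card ≤ ℵ₀)
    (T₀ : L₀.Theory) (T₁ : L₁.Theory) (hT₀ : T₀.IsComplete)
    (hs : ¬ Unstable T₀) (hu : Unstable T₁) : LeStar T₀ T₁ := by
  obtain ⟨⟨N0⟩, -⟩ := hT₀
  obtain ⟨m, n, ψ, N1, a, b, hab⟩ := hu
  refine ⟨ℵ₁, fun lam hlam hreg => ?_⟩
  have hgood := good_un (L₀ := L₀) (L₁ := L₁) (N0 := N0) (N1 := N1) (T₀ := T₀) (T₁ := T₁)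
    N0.is_model N1.is_model ψ a b hab
  have hne : Nonempty (Un N0 N1) := ⟨Un.num 0⟩
  refine ⟨LA L₀, LA L₁, LC, (LL L₀ L₁).completeTheory (Un N0 N1), tupOf L₀, tupOf L₁,
    card_LA h₀, card_LA h₁, card_LC, completeTheory.isComplete _ _, ?_⟩
  intro M _ _ _ _ hM
  have h := hgood.transfer (@ι₀ L₀ L₁) (@ι₁ L₀ L₁) (@ι₂ L₀ L₁) hM
  have hD₀ : ∀ a : M, (tupOf L₀).eq.Realize ![a, a] ↔ Dm (@ι₀ L₀ L₁) M a := fun a => tupOf_eq a
  have hD₁ : ∀ a : M, (tupOf L₁).eq.Realize ![a, a] ↔ Dm (@ι₁ L₀ L₁) M a := fun a => tupOf_eq a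
  let S₀ : L₀.Structure ((tupOf L₀).Dom M) := mkStr (@ι₀ L₀ L₁) hD₀ h.fn0
  let S₁ : L₁.Structure ((tupOf L₁).Dom M) := mkStr (@ι₁ L₀ L₁) hD₁ h.fn1
  have hm₀ : Match (D := fun a : M => (tupOf L₀).eq.Realize ![a, a]) (@ι₀ L₀ L₁) :=
    mkStr_match (@ι₀ L₀ L₁) hD₀ h.fn0
  have hm₁ : Match (D := fun a : M => (tupOf L₁).eq.Realize ![a, a]) (@ι₁ L₀ L₁) :=
    mkStr_match (@ι₁ L₀ L₁) hD₁ h.fn1
  have hn₀ : Nonempty ((tupOf L₀).Dom M) := by
    obtain ⟨x, hx⟩ := h.ne0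
    exact ⟨⟨x, (hD₀ x).2 hx⟩⟩
  have hn₁ : Nonempty ((tupOf L₁).Dom M) := by
    obtain ⟨x, hx⟩ := h.ne1
    exact ⟨⟨x, (hD₁ x).2 hx⟩⟩
  have ht₀ : (tupOf L₀).Dom M ⊨ T₀ := models_of (@ι₀ L₀ L₁) hD₀ @hm₀ h.th0
  have ht₁ : (tupOf L₁).Dom M ⊨ T₁ := models_of (@ι₁ L₀ L₁) hD₁ @hm₁ h.th1
  refine ⟨S₀, S₁, ⟨fun R x => ?_, fun f x y => ?_⟩, ⟨fun R x => ?_, fun f x y => ?_⟩, hn₀, hn₁,
    ht₀, ht₁, fun hsat hsat₁ => h.main hD₀ @hm₀ hD₁ @hm₁ ht₀ hs h₀ hlam hsat hsat₁⟩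
  · exact (hm₀.1 R x).trans (tupOf_rel R _).symm
  · exact (hm₀.2 f x y).trans (tupOf_fn f _).symm
  · exact (hm₁.1 R x).trans (tupOf_rel R _).symm
  · exact (hm₁.2 f x y).trans (tupOf_fn f _).symm

end Pool.Agent.R598.IO
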