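import Pool.Agent.R598.IO.Stab

/-!
# The properties of the structures
-/

set_option autoImplicit false

namespace Pool.Agent.R598.IO

open FirstOrder FirstOrder.Language Cardinal

/-- The symbols for numbers and sequences. -/
inductive SC : ℕ → Type
  | num : SC 1
  | lt : SC 2
  | ev : SC 3

variable {K₀ K₁ L : FirstOrder.Language.{0, 0}} (ι₀ : ∀ {n : ℕ}, Sy K₀ n → L.Relations n)
  (ι₁ : ∀ {n : ℕ}, Sy K₁ n → L.Relations n) (ι₂ : ∀ {n : ℕ}, SC n → L.Relations n)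

section

variable (M : Type) [L.Structure M]

/-- The numbers. -/
def Nm (x : M) : Prop := Structure.RelMap (ι₂ SC.num) fun _ => x

/-- The order of the numbers. -/
def Lt (x y : M) : Prop := Structure.RelMap (ι₂ SC.lt) ![x, y]

/-- The element `i` of the sequence `s` is `y`. -/
def Ev (s i y : M) : Prop := Structure.RelMap (ι₂ SC.ev) ![s, i, y]

/-- The element is a sequence of elements of the domain. -/
def Cod (s : M) : Prop := ∀ j, Nm (@ι₂) M j → ∃ z, Dm (@ι₀) M z ∧ Ev (@ι₂) M s j z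

end

theorem ud_nm {α : Type} (a : α) :
    UD L fun (M : Type) [L.Structure M] (v : α → M) => Nm (@ι₂) M (v a) :=
  UD.rel _ fun _ => a

theorem ud_lt {α : Type} (a b : α) :
    UD L fun (M : Type) [L.Structure M] (v : α → M) => Lt (@ι₂) M (v a) (v b) := by
  refine (UD.rel (ι₂ SC.lt) ![a, b]).congr fun M _ v => ?_
  have h : (fun i => v (![a, b] i)) = ![v a, v b] := by
    funext i
    fin_cases i <;> rfl
  rw [h]
  rfl

theorem ud_ev {α : Type} (a b c : α) :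
    UD L fun (M : Type) [L.Structure M] (v : α → M) => Ev (@ι₂) M (v a) (v b) (v c) := by
  refine (UD.rel (ι₂ SC.ev) ![a, b, c]).congr fun M _ v => ?_
  have h : (fun i => v (![a, b, c] i)) = ![v a, v b, v c] := by
    funext i
    fin_cases i <;> rfl
  rw [h]
  rfl

theorem ud_cod {α : Type} (a : α) :
    UD L fun (M : Type) [L.Structure M] (v : α → M) => Cod (@ι₀) (@ι₂) M (v a) := by
  unfold Cod
  repeat' first
    | exact ud_nm _ _ | exact ud_ev _ _ _ _ | exact ud_dm _ _ | apply UD.and | apply UD.imp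
    | apply UD.all | apply UD.ex

theorem ud_snoc {α : Type} {n : ℕ} (r : L.Relations (n + 1)) (g : Fin n → α) (a : α) :
    UD L fun (M : Type) [L.Structure M] (v : α → M) =>
      Structure.RelMap r (Fin.snoc (fun i => v (g i)) (v a) : Fin _ → M) := by
  refine (UD.rel r (Fin.snoc g a)).congr fun M _ v => ?_
  have h : (fun i => v ((Fin.snoc g a : Fin _ → α) i)) =
      (Fin.snoc (fun i => v (g i)) (v a) : Fin _ → M) := by
    funext i
    refine Fin.lastCases ?_ (fun j => ?_) i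
    · simp
    · simp
  rw [h]

theorem ud_fm2 (ι : ∀ {n : ℕ}, Sy K₀ n → L.Relations n) {α β γ : Type}
    (φ : K₀.Formula (β ⊕ γ)) (g : β → α) (h : γ → α) :
    UD L fun (M : Type) [L.Structure M] (v : α → M) =>
      fm (@ι) M φ (Sum.elim (fun b => v (g b)) fun c => v (h c)) Fin.elim0 := by
  refine ((ud_fm0 (@ι) φ).relabel (Sum.elim g h)).congr fun M _ v => ?_
  have h1 : (fun a => v (Sum.elim g h a)) = Sum.elim (fun b => v (g b)) fun c => v (h c) := by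
    funext a
    cases a <;> rfl
  rw [h1]

/-- The properties of the structure that are used. -/
structure GoodStr (T₀ : K₀.Theory) (T₁ : K₁.Theory) {m n : ℕ} (ψ : K₁.Formula (Fin m ⊕ Fin n))
    (M : Type) [L.Structure M] : Prop where
  irr : ∀ x, ¬ Lt (@ι₂) M x x
  trans : ∀ x y z, Lt (@ι₂) M x y → Lt (@ι₂) M y z → Lt (@ι₂) M x z
  tot : ∀ x y, Nm (@ι₂) M x → Nm (@ι₂) M y → Lt (@ι₂) M x y ∨ x = y ∨ Lt (@ι₂) M y x
  ltn : ∀ x y, Lt (@ι₂) M x y → Nm (@ι₂) M x ∧ Nm (@ι₂) M y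
  zero : ∃ x, Nm (@ι₂) M x ∧ ∀ y, ¬ Lt (@ι₂) M y x
  succ : ∀ x, Nm (@ι₂) M x → ∃ y, Lt (@ι₂) M x y ∧ ∀ z, Lt (@ι₂) M z y → Lt (@ι₂) M z x ∨ z = x
  pred : ∀ x, (∃ y, Lt (@ι₂) M y x) → ∃ y, Lt (@ι₂) M y x ∧
    ∀ z, Lt (@ι₂) M z x → Lt (@ι₂) M z y ∨ z = y
  lnp : ∀ {α : Type} [Finite α] {R : ∀ (M : Type) [L.Structure M], (α ⊕ Unit → M) → Prop},
    UD L R → ∀ v : α → M, (∃ j, Nm (@ι₂) M j ∧ R M (Sum.elim v fun _ => j)) →
      ∃ j, (Nm (@ι₂) M j ∧ R M (Sum.elim v fun _ => j)) ∧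
        ∀ i, Lt (@ι₂) M i j → ¬ R M (Sum.elim v fun _ => i)
  evf : ∀ s i y z, Ev (@ι₂) M s i y → Ev (@ι₂) M s i z → y = z
  cod0 : ∃ s, Cod (@ι₀) (@ι₂) M s
  modi : ∀ s i y, Cod (@ι₀) (@ι₂) M s → Nm (@ι₂) M i → Dm (@ι₀) M y →
    ∃ s', Cod (@ι₀) (@ι₂) M s' ∧ Ev (@ι₂) M s' i y ∧
      ∀ j, ¬ j = i → ∀ z, Ev (@ι₂) M s j z → Ev (@ι₂) M s' j z
  ord : ∃ (a : Fin m → M) (b : Fin n → M), ∀ i j, Nm (@ι₂) M i → Nm (@ι₂) M j →
    ∃ (x : Fin m → M) (y : Fin n → M), (∀ l, Dm (@ι₁) M (x l) ∧ Ev (@ι₂) M (a l) i (x l)) ∧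
      (∀ l, Dm (@ι₁) M (y l) ∧ Ev (@ι₂) M (b l) j (y l)) ∧
      (fm (@ι₁) M ψ (Sum.elim x y) Fin.elim0 ↔ Lt (@ι₂) M i j)
  ne0 : ∃ x, Dm (@ι₀) M x
  ne1 : ∃ x, Dm (@ι₁) M x
  fn0 : ∀ (n : ℕ) (f : K₀.Functions n) (z : Fin n → M), (∀ i, Dm (@ι₀) M (z i)) →
    ∃ y, (Dm (@ι₀) M y ∧ Structure.RelMap (ι₀ (Sy.fn f)) (Fin.snoc z y : Fin _ → M)) ∧
      ∀ y', (Dm (@ι₀) M y' ∧ Structure.RelMap (ι₀ (Sy.fn f)) (Fin.snoc z y' : Fin _ → M)) → y' = y
  fn1 : ∀ (n : ℕ) (f : K₁.Functions n) (z : Fin n → M), (∀ i, Dm (@ι₁) M (z i)) →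
    ∃ y, (Dm (@ι₁) M y ∧ Structure.RelMap (ι₁ (Sy.fn f)) (Fin.snoc z y : Fin _ → M)) ∧
      ∀ y', (Dm (@ι₁) M y' ∧ Structure.RelMap (ι₁ (Sy.fn f)) (Fin.snoc z y' : Fin _ → M)) → y' = y
  th0 : ∀ σ ∈ T₀, fm (@ι₀) M (σ : K₀.Formula Empty) Empty.elim Fin.elim0
  th1 : ∀ σ ∈ T₁, fm (@ι₁) M (σ : K₁.Formula Empty) Empty.elim Fin.elim0

theorem GoodStr.transfer {T₀ : K₀.Theory} {T₁ : K₁.Theory} {m n : ℕ}
    {ψ : K₁.Formula (Fin m ⊕ Fin n)} {M N : Type} [L.Structure M] [L.Structure N]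
    (hMN : M ⊨ L.completeTheory N) (h : GoodStr (@ι₀) (@ι₁) (@ι₂) T₀ T₁ ψ N) :
    GoodStr (@ι₀) (@ι₁) (@ι₂) T₀ T₁ ψ M where
  irr := UD.transfer (R := fun (M : Type) [L.Structure M] (_ : Empty → M) => ∀ x, ¬ Lt (@ι₂) M x x)
    (by
      repeat' first
        | exact ud_lt _ _ _ | apply UD.not | apply UD.all) hMN h.irr
  trans := UD.transfer (R := fun (M : Type) [L.Structure M] (_ : Empty → M) =>
    ∀ x y z, Lt (@ι₂) M x y → Lt (@ι₂) M y z → Lt (@ι₂) M x z) (by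
      repeat' first
        | exact ud_lt _ _ _ | apply UD.imp | apply UD.all) hMN h.trans
  tot := UD.transfer (R := fun (M : Type) [L.Structure M] (_ : Empty → M) =>
    ∀ x y, Nm (@ι₂) M x → Nm (@ι₂) M y → Lt (@ι₂) M x y ∨ x = y ∨ Lt (@ι₂) M y x) (by
      repeat' first
        | exact ud_lt _ _ _ | exact ud_nm _ _ | exact UD.eq _ _ | apply UD.imp | apply UD.all
        | apply UD.or) hMN h.tot
  ltn := UD.transfer (R := fun (M : Type) [L.Structure M] (_ : Empty → M) =>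
    ∀ x y, Lt (@ι₂) M x y → Nm (@ι₂) M x ∧ Nm (@ι₂) M y) (by
      repeat' first
        | exact ud_lt _ _ _ | exact ud_nm _ _ | exact UD.eq _ _ | apply UD.imp | apply UD.all
        | apply UD.and) hMN h.ltn
  zero := UD.transfer (R := fun (M : Type) [L.Structure M] (_ : Empty → M) =>
    ∃ x, Nm (@ι₂) M x ∧ ∀ y, ¬ Lt (@ι₂) M y x) (by
      repeat' first
        | exact ud_lt _ _ _ | exact ud_nm _ _ | exact UD.eq _ _ | apply UD.not | apply UD.all
        | apply UD.ex | apply UD.and) hMN h.zero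
  succ := UD.transfer (R := fun (M : Type) [L.Structure M] (_ : Empty → M) =>
    ∀ x, Nm (@ι₂) M x → ∃ y, Lt (@ι₂) M x y ∧ ∀ z, Lt (@ι₂) M z y → Lt (@ι₂) M z x ∨ z = x) (by
      repeat' first
        | exact ud_lt _ _ _ | exact ud_nm _ _ | exact UD.eq _ _ | apply UD.imp | apply UD.all
        | apply UD.ex | apply UD.and | apply UD.or) hMN h.succ
  pred := UD.transfer (R := fun (M : Type) [L.Structure M] (_ : Empty → M) =>
    ∀ x, (∃ y, Lt (@ι₂) M y x) → ∃ y, Lt (@ι₂) M y x ∧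
      ∀ z, Lt (@ι₂) M z x → Lt (@ι₂) M z y ∨ z = y) (by
      repeat' first
        | exact ud_lt _ _ _ | exact ud_nm _ _ | exact UD.eq _ _ | apply UD.imp | apply UD.all
        | apply UD.ex | apply UD.and | apply UD.or) hMN h.pred
  lnp := by
    intro α _ R hR
    have hR' : ∀ {γ : Type} (g : α → γ) (c : γ), UD L fun (M : Type) [L.Structure M]
        (v : γ → M) => R M (Sum.elim (fun a => v (g a)) fun _ => v c) := by
      intro γ g c
      refine (hR.relabel (Sum.elim g fun _ => c)).congr fun M _ v => ?_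
      have h1 : (fun a => v (Sum.elim g (fun _ : Unit => c) a)) =
          Sum.elim (fun a => v (g a)) fun _ : Unit => v c := by
        funext a
        cases a <;> rfl
      rw [h1]
    exact UD.transfer (R := fun (M : Type) [L.Structure M] (_ : Empty → M) =>
      ∀ v : α → M, (∃ j, Nm (@ι₂) M j ∧ R M (Sum.elim v fun _ => j)) →
      ∃ j, (Nm (@ι₂) M j ∧ R M (Sum.elim v fun _ => j)) ∧
        ∀ i, Lt (@ι₂) M i j → ¬ R M (Sum.elim v fun _ => i)) (by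
      repeat' first
        | exact ud_lt _ _ _ | exact ud_nm _ _ | exact hR' _ _ | apply UD.not | apply UD.imp
        | apply UD.all | apply UD.ex | apply UD.and | apply UD.allT) hMN (h.lnp hR)
  evf := UD.transfer (R := fun (M : Type) [L.Structure M] (_ : Empty → M) =>
    ∀ s i y z, Ev (@ι₂) M s i y → Ev (@ι₂) M s i z → y = z) (by
      repeat' first
        | exact ud_ev _ _ _ _ | exact UD.eq _ _ | apply UD.imp | apply UD.all) hMN h.evf
  cod0 := UD.transfer (R := fun (M : Type) [L.Structure M] (_ : Empty → M) =>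
    ∃ s, Cod (@ι₀) (@ι₂) M s) (by
      repeat' first
        | exact ud_cod _ _ _ | apply UD.ex) hMN h.cod0
  modi := UD.transfer (R := fun (M : Type) [L.Structure M] (_ : Empty → M) =>
    ∀ s i y, Cod (@ι₀) (@ι₂) M s → Nm (@ι₂) M i → Dm (@ι₀) M y →
    ∃ s', Cod (@ι₀) (@ι₂) M s' ∧ Ev (@ι₂) M s' i y ∧
      ∀ j, ¬ j = i → ∀ z, Ev (@ι₂) M s j z → Ev (@ι₂) M s' j z) (by
      repeat' first
        | exact ud_cod _ _ _ | exact ud_ev _ _ _ _ | exact ud_nm _ _ | exact ud_dm _ _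
        | exact UD.eq _ _ | apply UD.not | apply UD.imp | apply UD.all | apply UD.ex
        | apply UD.and) hMN h.modi
  ord := UD.transfer (R := fun (M : Type) [L.Structure M] (_ : Empty → M) =>
    ∃ (a : Fin m → M) (b : Fin n → M), ∀ i j, Nm (@ι₂) M i → Nm (@ι₂) M j →
    ∃ (x : Fin m → M) (y : Fin n → M), (∀ l, Dm (@ι₁) M (x l) ∧ Ev (@ι₂) M (a l) i (x l)) ∧
      (∀ l, Dm (@ι₁) M (y l) ∧ Ev (@ι₂) M (b l) j (y l)) ∧
      (fm (@ι₁) M ψ (Sum.elim x y) Fin.elim0 ↔ Lt (@ι₂) M i j)) (by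
      repeat' first
        | exact ud_lt _ _ _ | exact ud_ev _ _ _ _ | exact ud_nm _ _ | exact ud_dm _ _
        | exact ud_fm2 _ _ _ _ | apply UD.iff | apply UD.imp | apply UD.all | apply UD.ex
        | apply UD.exT | apply UD.and | apply UD.iall | intro _) hMN h.ord
  ne0 := UD.transfer (R := fun (M : Type) [L.Structure M] (_ : Empty → M) =>
    ∃ x, Dm (@ι₀) M x) (by
      repeat' first
        | exact ud_dm _ _ | apply UD.ex) hMN h.ne0
  ne1 := UD.transfer (R := fun (M : Type) [L.Structure M] (_ : Empty → M) =>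
    ∃ x, Dm (@ι₁) M x) (by
      repeat' first
        | exact ud_dm _ _ | apply UD.ex) hMN h.ne1
  fn0 := by
    intro n f
    exact UD.transfer (R := fun (M : Type) [L.Structure M] (_ : Empty → M) =>
      ∀ z : Fin n → M, (∀ i, Dm (@ι₀) M (z i)) →
      ∃ y, (Dm (@ι₀) M y ∧ Structure.RelMap (ι₀ (Sy.fn f)) (Fin.snoc z y : Fin _ → M)) ∧
      ∀ y', (Dm (@ι₀) M y' ∧ Structure.RelMap (ι₀ (Sy.fn f)) (Fin.snoc z y' : Fin _ → M)) →
        y' = y) (by
      repeat' first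
        | exact ud_dm _ _ | exact ud_snoc _ _ _ | exact UD.eq _ _ | apply UD.imp | apply UD.all
        | apply UD.ex | apply UD.allT | apply UD.and | apply UD.iall | intro _) hMN (h.fn0 n f)
  fn1 := by
    intro n f
    exact UD.transfer (R := fun (M : Type) [L.Structure M] (_ : Empty → M) =>
      ∀ z : Fin n → M, (∀ i, Dm (@ι₁) M (z i)) →
      ∃ y, (Dm (@ι₁) M y ∧ Structure.RelMap (ι₁ (Sy.fn f)) (Fin.snoc z y : Fin _ → M)) ∧
      ∀ y', (Dm (@ι₁) M y' ∧ Structure.RelMap (ι₁ (Sy.fn f)) (Fin.snoc z y' : Fin _ → M)) →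
        y' = y) (by
      repeat' first
        | exact ud_dm _ _ | exact ud_snoc _ _ _ | exact UD.eq _ _ | apply UD.imp | apply UD.all
        | apply UD.ex | apply UD.allT | apply UD.and | apply UD.iall | intro _) hMN (h.fn1 n f)
  th0 := fun σ hσ => UD.transfer (ud_fm0 (@ι₀) (σ : K₀.Formula Empty)) hMN (h.th0 σ hσ)
  th1 := fun σ hσ => UD.transfer (ud_fm0 (@ι₁) (σ : K₁.Formula Empty)) hMN (h.th1 σ hσ)

end Pool.Agent.R598.IO
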