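import Pool.Agent.R598.IO.Std

/-!
# Saturation of the first structure
-/

set_option autoImplicit false

namespace Pool.Agent.R598.IO

open FirstOrder FirstOrder.Language Cardinal

variable {K₀ K₁ L : FirstOrder.Language.{0, 0}} {ι₀ : ∀ {n : ℕ}, Sy K₀ n → L.Relations n}
  {ι₁ : ∀ {n : ℕ}, Sy K₁ n → L.Relations n} {ι₂ : ∀ {n : ℕ}, SC n → L.Relations n}
  {T₀ : K₀.Theory} {T₁ : K₁.Theory} {m n : ℕ} {ψ : K₁.Formula (Fin m ⊕ Fin n)} {M : Type}
  [L.Structure M]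

/-- Finite sequences have codes. -/
theorem GoodStr.code_fin (h : GoodStr (@ι₀) (@ι₁) (@ι₂) T₀ T₁ ψ M) {ν : ℕ → M}
    (hν : IsNu (@ι₂) M ν) (g : ℕ → M) (hg : ∀ k, Dm (@ι₀) M (g k)) (K : ℕ) :
    ∃ s, Cod (@ι₀) (@ι₂) M s ∧ ∀ k < K, Ev (@ι₂) M s (ν k) (g k) := by
  induction K with
  | zero =>
    obtain ⟨s, hs⟩ := h.cod0
    exact ⟨s, hs, fun k hk => absurd hk (Nat.not_lt_zero k)⟩
  | succ K ih =>
    obtain ⟨s, hs, hs'⟩ := ih
    obtain ⟨s', h1, h2, h3⟩ := h.modi s (ν K) (g K) hs (hν.nm K) (hg K)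
    refine ⟨s', h1, fun k hk => ?_⟩
    rcases Nat.lt_succ_iff_lt_or_eq.1 hk with h4 | rfl
    · exact h3 _ (fun h5 => h4.ne (hν.inj h5)) _ (hs' k h4)
    · exact h2

/-- Sequences have codes. -/
theorem GoodStr.code (h : GoodStr (@ι₀) (@ι₁) (@ι₂) T₀ T₁ ψ M) {ν : ℕ → M}
    (hν : IsNu (@ι₂) M ν) (hsat : IsSat ℵ₁ L M) (g : ℕ → M) (hg : ∀ k, Dm (@ι₀) M (g k)) :
    ∃ s, Cod (@ι₀) (@ι₂) M s ∧ ∀ k, Ev (@ι₂) M s (ν k) (g k) := by
  let R : ∀ (k : ℕ) (M : Type) [L.Structure M], (Bool ⊕ Fin 1 → M) → Prop := fun _ M _ w =>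
    Cod (@ι₀) (@ι₂) M (w (Sum.inr 0)) ∧
      Ev (@ι₂) M (w (Sum.inr 0)) (w (Sum.inl false)) (w (Sum.inl true))
  obtain ⟨x, hx⟩ := hsat.real (n := 1) (I := ℕ) (β := fun _ => Bool) (R := R)
    (fun k => UD.and (ud_cod _ _ _) (ud_ev _ _ _ _)) (fun k b => cond b (g k) (ν k))
    (Set.range ν ∪ Set.range g) (by
      rw [← countable_iff_lt_aleph_one]
      exact (Set.countable_range _).union (Set.countable_range _)) (by
      intro k b
      cases b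
      · exact Or.inl ⟨k, rfl⟩
      · exact Or.inr ⟨k, rfl⟩) (by
      intro F hF
      obtain ⟨K, hK⟩ := hF.bddAbove
      obtain ⟨s, hs, hs'⟩ := h.code_fin hν g hg (K + 1)
      exact ⟨fun _ => s, fun k hk => ⟨hs, hs' k (Nat.lt_succ_of_le (hK hk))⟩⟩)
  exact ⟨x 0, (hx 0).1, fun k => (hx k).2⟩

/-- The formula holds at the element `j` of the sequence. -/
def At (ι : ∀ {n : ℕ}, Sy K₀ n → L.Relations n) (ι₂ : ∀ {n : ℕ}, SC n → L.Relations n)
    (M : Type) [L.Structure M] {m n : ℕ} (φ : K₀.Formula (Fin m ⊕ Fin n)) (c : Fin m → M)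
    (s : Fin n → M) (j : M) : Prop :=
  ∃ y : Fin n → M, (∀ l, Dm (@ι) M (y l) ∧ Ev (@ι₂) M (s l) j (y l)) ∧
    fm (@ι) M φ (Sum.elim c y) Fin.elim0

/-- The bound on the number of exceptions. -/
def Bd (ι : ∀ {n : ℕ}, Sy K₀ n → L.Relations n) (ι₂ : ∀ {n : ℕ}, SC n → L.Relations n)
    (M : Type) [L.Structure M] {m n : ℕ} (φ : K₀.Formula (Fin m ⊕ Fin n)) (K : ℕ)
    (s : Fin n → M) (h : M) : Prop :=
  ∀ c : Fin m → M, (∀ r, Dm (@ι) M (c r)) →
    (∃ i : Fin K → M, (∀ r, Lt (@ι₂) M (i r) h) ∧ (∀ r r', i r = i r' → r = r') ∧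
      ∀ r, At (@ι) (@ι₂) M φ c s (i r)) →
    ¬ ∃ i : Fin K → M, (∀ r, Lt (@ι₂) M (i r) h) ∧ (∀ r r', i r = i r' → r = r') ∧
      ∀ r, ¬ At (@ι) (@ι₂) M φ c s (i r)

theorem ud_at {α : Type} {m n : ℕ} (φ : K₀.Formula (Fin m ⊕ Fin n)) (c : Fin m → α)
    (s : Fin n → α) (j : α) : UD L fun (M : Type) [L.Structure M] (v : α → M) =>
      At (@ι₀) (@ι₂) M φ (fun r => v (c r)) (fun l => v (s l)) (v j) := by
  unfold At
  refine UD.exT (UD.and (UD.iall fun l => UD.and (ud_dm _ _) (ud_ev _ _ _ _)) ?_)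
  exact ud_fm2 _ φ _ _

theorem ud_bd {α : Type} {m n : ℕ} (φ : K₀.Formula (Fin m ⊕ Fin n)) (K : ℕ)
    (s : Fin n → α) (h : α) : UD L fun (M : Type) [L.Structure M] (v : α → M) =>
      Bd (@ι₀) (@ι₂) M φ K (fun l => v (s l)) (v h) := by
  unfold Bd
  refine UD.allT (UD.imp (UD.iall fun r => ud_dm _ _) (UD.imp ?_ (UD.not ?_)))
  · refine UD.exT (UD.and (UD.iall fun r => ud_lt _ _ _) (UD.and (UD.iall fun r =>
      UD.iall fun r' => UD.imp (UD.eq _ _) ?_) (UD.iall fun r => ud_at _ _ _ _)))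
    by_cases h1 : r = r'
    · exact UD.fls.not.congr fun M _ v => by simp [h1]
    · exact UD.fls.congr fun M _ v => by simp [h1]
  · refine UD.exT (UD.and (UD.iall fun r => ud_lt _ _ _) (UD.and (UD.iall fun r =>
      UD.iall fun r' => UD.imp (UD.eq _ _) ?_) (UD.iall fun r => (ud_at _ _ _ _).not)))
    by_cases h1 : r = r'
    · exact UD.fls.not.congr fun M _ v => by simp [h1]
    · exact UD.fls.congr fun M _ v => by simp [h1]

/-- The values of a code. -/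
theorem GoodStr.at_iff (h : GoodStr (@ι₀) (@ι₁) (@ι₂) T₀ T₁ ψ M) {D : M → Prop}
    (hD : ∀ a, D a ↔ Dm (@ι₀) M a) [K₀.Structure {a // D a}] (hm : Match (D := D) (@ι₀))
    {m n : ℕ} (φ : K₀.Formula (Fin m ⊕ Fin n)) (c : Fin m → {a // D a}) {s : Fin n → M} {j : M}
    {y : Fin n → {a // D a}} (hy : ∀ l, Ev (@ι₂) M (s l) j (y l).1) :
    At (@ι₀) (@ι₂) M φ (fun r => (c r).1) s j ↔ φ.Realize (Sum.elim c y) := by
  rw [← fm0_iff (@ι₀) hD @hm]
  have h6 : (fun t => ((Sum.elim c y) t).1) =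
      Sum.elim (fun r => (c r).1) fun l => (y l).1 := by
    funext t
    cases t <;> rfl
  rw [h6]
  constructor
  · rintro ⟨y', h1, h2⟩
    have h3 : y' = fun l => (y l).1 := by
      funext l
      exact h.evf _ _ _ _ (h1 l).2 (hy l)
    rw [← h3]
    exact h2
  · intro h1
    exact ⟨_, fun l => ⟨(hD _).1 (y l).2, hy l⟩, h1⟩

theorem GoodStr.main (h : GoodStr (@ι₀) (@ι₁) (@ι₂) T₀ T₁ ψ M) {D₀ : M → Prop}
    (hD₀ : ∀ a, D₀ a ↔ Dm (@ι₀) M a) [K₀.Structure {a // D₀ a}] (hm₀ : Match (D := D₀) (@ι₀))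
    {D₁ : M → Prop} (hD₁ : ∀ a, D₁ a ↔ Dm (@ι₁) M a) [K₁.Structure {a // D₁ a}]
    (hm₁ : Match (D := D₁) (@ι₁)) [Nonempty {a // D₀ a}] (hT : {a // D₀ a} ⊨ T₀)
    (hst : ¬ Unstable T₀) (hK : K₀.card ≤ ℵ₀) {lam : Cardinal.{0}} (hlam : ℵ₁ ≤ lam)
    (hsat : IsSat ℵ₁ L M) (hsat₁ : IsSat lam K₁ {a // D₁ a}) : IsSat lam K₀ {a // D₀ a} := by
  classical
  have hlam0 : ℵ₀ < lam := aleph0_lt_aleph_one.trans_le hlam
  obtain ⟨ν, hν⟩ := h.exists_nu
  intro n A hA p hp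
  -- the ultrafilter
  let S : Set (Set (Fin n → {a // D₀ a})) :=
    {s | ∃ φ ∈ p, s = {x | φ.Realize (Sum.elim Subtype.val x)}}
  have hS : (Filter.generate S).NeBot := by
    rw [Filter.generate_neBot_iff]
    intro t ht htf
    have h2 : ∀ u : t, ∃ φ ∈ p, u.1 = {x | φ.Realize (Sum.elim Subtype.val x)} :=
      fun u => ht u.2
    choose g hg hg' using h2
    have : Finite t := htf
    obtain ⟨x, hx⟩ := hp (Set.range g) (Set.finite_range g) (by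
      rintro _ ⟨u, rfl⟩
      exact hg u)
    refine ⟨x, fun u hu => ?_⟩
    have h3 := hg' ⟨u, hu⟩
    change u = _ at h3
    rw [h3]
    exact hx _ ⟨_, rfl⟩
  let q : Ultrafilter (Fin n → {a // D₀ a}) := Ultrafilter.of (Filter.generate S)
  have hq : ∀ φ ∈ p, {x | Formula.Realize φ (Sum.elim Subtype.val x)} ∈ q := by
    intro φ hφ
    exact Ultrafilter.of_le _ (Filter.mem_generate_of_mem ⟨φ, hφ, rfl⟩)
  -- the sequence
  obtain ⟨a, ha⟩ := lemA hK (isSat_dom (@ι₀) hD₀ @hm₀ hsat)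
    (fun m φ => exists_bound hst hT φ) q
  choose kk hkk using ha
  have hcode : ∀ l : Fin n, ∃ s, Cod (@ι₀) (@ι₂) M s ∧ ∀ k, Ev (@ι₂) M s (ν k) (a k l).1 :=
    fun l => h.code hν hsat (fun k => (a k l).1) fun k => (hD₀ _).1 (a k l).2
  choose s hs hs' using hcode
  -- the bound holds at the standard numbers
  have hbd : ∀ (m : ℕ) (φ : K₀.Formula (Fin m ⊕ Fin n)) (k : ℕ),
      Bd (@ι₀) (@ι₂) M φ (kk m φ) s (ν k) := by
    rintro m φ k c hc ⟨i, hi1, hi2, hi3⟩ ⟨j, hj1, hj2, hj3⟩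
    let c' : Fin m → {a // D₀ a} := fun r => ⟨c r, (hD₀ _).2 (hc r)⟩
    have hstd : ∀ (i : Fin (kk m φ) → M), (∀ r, Lt (@ι₂) M (i r) (ν k)) →
        (∀ r r', i r = i r' → r = r') → ∃ i' : Fin (kk m φ) → ℕ, Function.Injective i' ∧
          ∀ r, i r = ν (i' r) := by
      intro i hi1 hi2
      have h1 : ∀ r, ∃ i', i r = ν i' := by
        intro r
        obtain ⟨i', -, h2⟩ := hν.below k _ (hi1 r)
        exact ⟨i', h2⟩
      choose i' hi' using h1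
      refine ⟨i', fun r r' hr => hi2 r r' ?_, hi'⟩
      rw [hi', hi', hr]
    obtain ⟨i', hi', hi''⟩ := hstd i hi1 hi2
    obtain ⟨j', hj', hj''⟩ := hstd j hj1 hj2
    by_cases h1 : Lg q φ c'
    · refine (hkk m φ c').1 h1 ⟨j', hj', fun r hr => hj3 r ?_⟩
      rw [hj'']
      exact (h.at_iff hD₀ @hm₀ φ c' (fun l => hs' l (j' r))).2 hr
    · refine (hkk m φ c').2 h1 ⟨i', hi', fun r => ?_⟩
      have h2 := hi3 r
      rw [hi''] at h2
      exact (h.at_iff hD₀ @hm₀ φ c' (fun l => hs' l (i' r))).1 h2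
  -- the nonstandard number
  obtain ⟨H, hH, hH'⟩ : ∃ H, (∀ k, Lt (@ι₂) M (ν k) H) ∧
      ∀ (m : ℕ) (φ : K₀.Formula (Fin m ⊕ Fin n)), Bd (@ι₀) (@ι₂) M φ (kk m φ) s H := by
    let R : ∀ (i : ℕ × Σ m, K₀.Formula (Fin m ⊕ Fin n)) (M : Type) [L.Structure M],
        ((Fin n ⊕ Unit) ⊕ Fin 1 → M) → Prop := fun i M _ w =>
      Lt (@ι₂) M (w (Sum.inl (Sum.inr ()))) (w (Sum.inr 0)) ∧
        Bd (@ι₀) (@ι₂) M i.2.2 (kk i.2.1 i.2.2) (fun l => w (Sum.inl (Sum.inl l))) (w (Sum.inr 0))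
    obtain ⟨x, hx⟩ := hsat.real (n := 1) (I := ℕ × Σ m, K₀.Formula (Fin m ⊕ Fin n))
      (β := fun _ => Fin n ⊕ Unit) (R := R)
      (fun i => UD.and (ud_lt _ _ _) (ud_bd _ _ _ _)) (fun i => Sum.elim s fun _ => ν i.1)
      (Set.range s ∪ Set.range ν) (by
        rw [← countable_iff_lt_aleph_one]
        exact (Set.countable_range _).union (Set.countable_range _)) (by
        rintro i (l | l)
        · exact Or.inl ⟨l, rfl⟩
        · exact Or.inr ⟨i.1, rfl⟩) (by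
        intro F hF
        obtain ⟨K, hK⟩ := (hF.image Prod.fst).bddAbove
        exact ⟨fun _ => ν (K + 1), fun i hi => ⟨(hν.lt _ _).2
          (Nat.lt_succ_of_le (hK ⟨i, hi, rfl⟩)), hbd _ _ _⟩⟩)
    exact ⟨x 0, fun k => (hx (k, ⟨0, ⊥⟩)).1, fun m φ => (hx (0, ⟨m, φ⟩)).2⟩
  -- the exceptions
  have hex : ∀ (m : ℕ) (φ : K₀.Formula (Fin m ⊕ Fin n)) (c : Fin m → {a // D₀ a}), Lg q φ c →
      {j | Lt (@ι₂) M j H ∧ ¬ At (@ι₀) (@ι₂) M φ (fun r => (c r).1) s j}.Finite := by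
    intro m φ c hc
    by_contra hinf
    refine hH' m φ (fun r => (c r).1) (fun r => (hD₀ _).1 (c r).2) ?_ ?_
    · have h1 : {k : ℕ | ¬ φ.Realize (Sum.elim c (a k))}.Finite := by
        by_contra h2
        have h3 : {k : ℕ | ¬ φ.Realize (Sum.elim c (a k))}.Infinite := h2
        refine (hkk m φ c).1 hc ⟨fun r => (h3.natEmbedding _ r.1).1, fun r r' hr => ?_,
          fun r => (h3.natEmbedding _ r.1).2⟩
        exact Fin.ext ((h3.natEmbedding _).injective (Subtype.ext hr))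
      have h2 : {k : ℕ | φ.Realize (Sum.elim c (a k))}.Infinite := by
        have h3 := h1.infinite_compl
        have h4 : {k : ℕ | ¬ φ.Realize (Sum.elim c (a k))}ᶜ =
            {k : ℕ | φ.Realize (Sum.elim c (a k))} := by
          ext k
          simp
        rw [h4] at h3
        exact h3
      refine ⟨fun r => ν (h2.natEmbedding _ r.1).1, fun r => hH _, fun r r' hr => ?_,
        fun r => ?_⟩
      · exact Fin.ext ((h2.natEmbedding _).injective (Subtype.ext (hν.inj hr)))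
      · exact (h.at_iff hD₀ @hm₀ φ c (fun l => hs' l _)).2 (h2.natEmbedding _ r.1).2
    · have h3 : {j | Lt (@ι₂) M j H ∧ ¬ At (@ι₀) (@ι₂) M φ (fun r => (c r).1) s j}.Infinite :=
        hinf
      exact ⟨fun r => (h3.natEmbedding _ r.1).1, fun r => (h3.natEmbedding _ r.1).2.1,
        fun r r' hr => Fin.ext ((h3.natEmbedding _).injective (Subtype.ext hr)),
        fun r => (h3.natEmbedding _ r.1).2.2⟩
  -- the values of the codes
  have hval : ∀ j, Nm (@ι₂) M j → ∃ y : Fin n → {a // D₀ a}, ∀ l, Ev (@ι₂) M (s l) j (y l).1 := by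
    intro j hj
    choose y hy1 hy2 using fun l => hs l j hj
    exact ⟨fun l => ⟨y l, (hD₀ _).2 (hy1 l)⟩, hy2⟩
  choose y hy using hval
  have hjn : ∀ j : {j // Lt (@ι₂) M j H}, Nm (@ι₂) M j.1 := fun j => (h.ltn _ _ j.2).1
  let E : p → Set {j // Lt (@ι₂) M j H} := fun θ =>
    {j | ¬ θ.1.Realize (Sum.elim Subtype.val (y j.1 (hjn j)))}
  have hE : ∀ θ, (E θ).Finite := by
    intro θ
    obtain ⟨m, φ, c, hc⟩ := exists_nf θ.1
    have h1 : Lg q φ fun r => (c r).1 := by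
      unfold Lg
      have h2 : {x | φ.Realize (Sum.elim (fun r => (c r).1) x)} =
          {x | Formula.Realize θ.1 (Sum.elim Subtype.val x)} := by
        ext x
        exact (hc x).symm
      rw [h2]
      exact hq _ θ.2
    refine Set.Finite.of_finite_image (f := Subtype.val) ((hex m φ _ h1).subset ?_)
      Subtype.val_injective.injOn
    rintro _ ⟨j, hj, rfl⟩
    refine ⟨j.2, fun h3 => hj ?_⟩
    rw [hc]
    exact (h.at_iff hD₀ @hm₀ φ _ (hy j.1 (hjn j))).1 h3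
  have hcard : #(⋃ θ, E θ) < lam := by
    refine (mk_iUnion_le_sum_mk).trans_lt ?_
    have h1 : Cardinal.sum (fun θ => #(E θ)) ≤ Cardinal.sum fun _ : p => ℵ₀ :=
      sum_le_sum _ _ fun θ => (lt_aleph0_iff_set_finite.2 (hE θ)).le
    refine h1.trans_lt ?_
    rw [sum_const', mul_comm]
    have h2 : #p < lam := by
      refine (mk_set_le p).trans_lt (card_formula hlam0 ?_ hK)
      rw [mk_sum, lift_id, lift_id]
      exact add_lt_of_lt hlam0.le hA ((lt_aleph0_of_finite _).trans hlam0)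
    exact mul_lt_of_lt hlam0.le hlam0 h2
  have hB := h.lemB hν hD₁ @hm₁ hlam0.le hsat₁ hH
  obtain ⟨j, hj⟩ : ∃ j, j ∉ ⋃ θ, E θ := by
    by_contra h1
    push Not at h1
    have h2 : (⋃ θ, E θ) = Set.univ := Set.eq_univ_of_forall h1
    rw [h2, mk_univ] at hcard
    exact absurd hcard (not_lt.2 hB)
  refine ⟨y j.1 (hjn j), fun θ hθ => ?_⟩
  by_contra h1
  exact hj (Set.mem_iUnion.2 ⟨⟨θ, hθ⟩, h1⟩)

end Pool.Agent.R598.IO
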