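import Pool.Agent.R598.IO.UD

/-!
# Structures read off from relations
-/

set_option autoImplicit false

namespace Pool.Agent.R598.IO

open FirstOrder FirstOrder.Language Cardinal

/-- The relation symbols that describe a structure for the vocabulary `K` on a subset: a domain
symbol, the relation symbols of `K`, and symbols for the graphs of the functions. -/
inductive Sy (K : FirstOrder.Language.{0, 0}) : ℕ → Type
  | dom : Sy K 1
  | rel {n : ℕ} : K.Relations n → Sy K n
  | fn {n : ℕ} : K.Functions n → Sy K (n + 1)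

variable {K L : FirstOrder.Language.{0, 0}} (ι : ∀ {n : ℕ}, Sy K n → L.Relations n)

/-- The domain. -/
def Dm (M : Type) [L.Structure M] (x : M) : Prop :=
  Structure.RelMap (ι Sy.dom) fun _ => x

/-- The value of a term. -/
def tm (M : Type) [L.Structure M] {β : Type} : K.Term β → (β → M) → M → Prop
  | .var b, v, y => v b = y
  | .func f ts, v, y => ∃ z : Fin _ → M, (∀ i, Dm (@ι) M (z i)) ∧ (∀ i, tm M (ts i) v (z i)) ∧
      Structure.RelMap (ι (Sy.fn f)) (Fin.snoc z y : Fin _ → M)

/-- The truth of a formula. -/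
def fm (M : Type) [L.Structure M] {α : Type} : ∀ {n : ℕ}, K.BoundedFormula α n → (α → M) →
    (Fin n → M) → Prop
  | _, .falsum, _, _ => False
  | _, .equal t₁ t₂, v, xs => ∃ y, Dm (@ι) M y ∧ tm (@ι) M t₁ (Sum.elim v xs) y ∧
      tm (@ι) M t₂ (Sum.elim v xs) y
  | _, .rel R ts, v, xs => ∃ z : Fin _ → M, (∀ i, Dm (@ι) M (z i)) ∧
      (∀ i, tm (@ι) M (ts i) (Sum.elim v xs) (z i)) ∧ Structure.RelMap (ι (Sy.rel R)) z
  | _, .imp f g, v, xs => fm M f v xs → fm M g v xs
  | _, .all f, v, xs => ∀ x, Dm (@ι) M x → fm M f v (Fin.snoc xs x)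

theorem ud_dm {α : Type} (a : α) :
    UD L fun (M : Type) [L.Structure M] (v : α → M) => Dm (@ι) M (v a) :=
  UD.rel _ fun _ => a

theorem ud_tm {β : Type} (t : K.Term β) : UD L fun (M : Type) [L.Structure M]
    (w : β ⊕ Unit → M) => tm (@ι) M t (fun b => w (Sum.inl b)) (w (Sum.inr ())) := by
  induction t with
  | var b => exact UD.eq _ _
  | func f ts ih =>
    refine UD.exT (UD.and (UD.iall fun i => ud_dm (@ι) _) (UD.and (UD.iall fun i => ?_) ?_))
    · exact (ih i).relabel (Sum.elim (fun b => Sum.inl (Sum.inl b)) fun _ => Sum.inr i)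
    · refine (UD.rel (ι (Sy.fn f)) (Fin.snoc (fun i => Sum.inr i) (Sum.inl (Sum.inr ())))).congr
        fun M _ w => ?_
      have h : (fun i => w (Fin.snoc (α := fun _ => (β ⊕ Unit) ⊕ Fin _) (fun i => Sum.inr i)
          (Sum.inl (Sum.inr ())) i)) =
          Fin.snoc (α := fun _ => M) (fun i => w (Sum.inr i)) (w (Sum.inl (Sum.inr ()))) := by
        funext i
        refine Fin.lastCases ?_ (fun j => ?_) i
        · simp
        · simp
      rw [h]

theorem ud_fm {α : Type} {n : ℕ} (φ : K.BoundedFormula α n) :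
    UD L fun (M : Type) [L.Structure M] (w : α ⊕ Fin n → M) =>
      fm (@ι) M φ (fun a => w (Sum.inl a)) fun i => w (Sum.inr i) := by
  induction φ with
  | falsum => exact UD.fls
  | equal t₁ t₂ =>
    refine UD.ex (UD.and (ud_dm (@ι) _) (UD.and ?_ ?_))
    · refine ((ud_tm (@ι) t₁).relabel (Sum.elim (fun b => Sum.inl b) fun _ => Sum.inr ())).congr
        fun M _ w => ?_
      have h : (fun b => w (Sum.inl b)) = Sum.elim (fun a => w (Sum.inl (Sum.inl a)))
          fun i => w (Sum.inl (Sum.inr i)) := by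
        funext b
        cases b <;> rfl
      rw [← h]
      rfl
    · refine ((ud_tm (@ι) t₂).relabel (Sum.elim (fun b => Sum.inl b) fun _ => Sum.inr ())).congr
        fun M _ w => ?_
      have h : (fun b => w (Sum.inl b)) = Sum.elim (fun a => w (Sum.inl (Sum.inl a)))
          fun i => w (Sum.inl (Sum.inr i)) := by
        funext b
        cases b <;> rfl
      rw [← h]
      rfl
  | rel R ts =>
    refine UD.exT (UD.and (UD.iall fun i => ud_dm (@ι) _) (UD.and (UD.iall fun i => ?_)
      (UD.rel _ fun i => Sum.inr i)))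
    refine ((ud_tm (@ι) (ts i)).relabel (Sum.elim (fun b => Sum.inl b) fun _ => Sum.inr i)).congr
      fun M _ w => ?_
    have h : (fun b => w (Sum.inl b)) = Sum.elim (fun a => w (Sum.inl (Sum.inl a)))
        fun i => w (Sum.inl (Sum.inr i)) := by
      funext b
      cases b <;> rfl
    rw [← h]
    rfl
  | imp f g hf hg => exact hf.imp hg
  | all f hf =>
    refine UD.all (UD.imp (ud_dm (@ι) _) ?_)
    refine (hf.relabel (Sum.elim (fun a => Sum.inl (Sum.inl a))
      (Fin.snoc (fun i => Sum.inl (Sum.inr i)) (Sum.inr ())))).congr fun M _ w => ?_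
    have h : (fun i => w (Sum.elim (fun a => Sum.inl (Sum.inl a))
        (Fin.snoc (α := fun _ => (α ⊕ Fin _) ⊕ Unit) (fun i => Sum.inl (Sum.inr i)) (Sum.inr ()))
          (Sum.inr i))) =
        Fin.snoc (α := fun _ => M) (fun i => w (Sum.inl (Sum.inr i))) (w (Sum.inr ())) := by
      funext i
      refine Fin.lastCases ?_ (fun j => ?_) i
      · simp
      · simp
    rw [h]
    rfl

section sound

variable {M : Type} [L.Structure M] {D : M → Prop} (hD : ∀ a, D a ↔ Dm (@ι) M a)
  [K.Structure {a // D a}]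

/-- The structure is read off from the relations. -/
def Match : Prop :=
  (∀ {n : ℕ} (R : K.Relations n) (x : Fin n → {a // D a}), Structure.RelMap R x ↔
    Structure.RelMap (ι (Sy.rel R)) fun i => (x i).1) ∧
  ∀ {n : ℕ} (f : K.Functions n) (x : Fin n → {a // D a}) (y : {a // D a}),
    Structure.funMap f x = y ↔
      Structure.RelMap (ι (Sy.fn f)) (Fin.snoc (fun i => (x i).1) y.1 : Fin _ → M)

variable (hm : Match (D := D) (@ι))

include hD hm in
theorem tm_iff {β : Type} (t : K.Term β) (v : β → {a // D a}) (y : {a // D a}) :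
    tm (@ι) M t (fun b => (v b).1) y.1 ↔ t.realize v = y := by
  induction t generalizing y with
  | var b => exact ⟨fun h => Subtype.ext h, fun h => congrArg Subtype.val h⟩
  | func f ts ih =>
    constructor
    · rintro ⟨z, h1, h2, h3⟩
      let z' : Fin _ → {a // D a} := fun i => ⟨z i, (hD _).2 (h1 i)⟩
      have h4 : (fun i => (ts i).realize v) = z' := by
        funext i
        exact (ih i (z' i)).1 (h2 i)
      rw [Term.realize_func, h4]
      exact (hm.2 f z' y).2 h3
    · intro h
      refine ⟨fun i => ((ts i).realize v).1, fun i => (hD _).1 ((ts i).realize v).2,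
        fun i => (ih i _).2 rfl, ?_⟩
      exact (hm.2 f (fun i => (ts i).realize v) y).1 (by
        rw [← h, Term.realize_func])

include hD hm in
theorem fm_iff {α : Type} {n : ℕ} (φ : K.BoundedFormula α n) (v : α → {a // D a})
    (xs : Fin n → {a // D a}) :
    fm (@ι) M φ (fun a => (v a).1) (fun i => (xs i).1) ↔ φ.Realize v xs := by
  have hel : ∀ {n : ℕ} (xs : Fin n → {a // D a}), Sum.elim (fun a => (v a).1)
      (fun i => (xs i).1) = fun b => ((Sum.elim v xs) b).1 := by
    intro n xs
    funext b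
    cases b <;> rfl
  induction φ with
  | falsum => exact Iff.rfl
  | equal t₁ t₂ =>
    change (∃ y, Dm (@ι) M y ∧ tm (@ι) M t₁ (Sum.elim _ _) y ∧ tm (@ι) M t₂ (Sum.elim _ _) y) ↔ _
    rw [hel xs]
    constructor
    · rintro ⟨y, h1, h2, h3⟩
      have h4 := (tm_iff (@ι) hD @hm t₁ _ ⟨y, (hD _).2 h1⟩).1 h2
      have h5 := (tm_iff (@ι) hD @hm t₂ _ ⟨y, (hD _).2 h1⟩).1 h3
      exact h4.trans h5.symm
    · intro h
      exact ⟨(t₁.realize (Sum.elim v xs)).1, (hD _).1 (t₁.realize (Sum.elim v xs)).2,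
        (tm_iff (@ι) hD @hm t₁ _ _).2 rfl, (tm_iff (@ι) hD @hm t₂ _ _).2 (Eq.symm h)⟩
  | rel R ts =>
    change (∃ z : Fin _ → M, (∀ i, Dm (@ι) M (z i)) ∧
      (∀ i, tm (@ι) M (ts i) (Sum.elim _ _) (z i)) ∧ Structure.RelMap (ι (Sy.rel R)) z) ↔ _
    rw [hel xs]
    constructor
    · rintro ⟨z, h1, h2, h3⟩
      let z' : Fin _ → {a // D a} := fun i => ⟨z i, (hD _).2 (h1 i)⟩
      have h4 : (fun i => (ts i).realize (Sum.elim v xs)) = z' := by
        funext i
        exact (tm_iff (@ι) hD @hm (ts i) _ (z' i)).1 (h2 i)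
      change Structure.RelMap R (fun i => (ts i).realize (Sum.elim v xs))
      rw [h4]
      exact (hm.1 R z').2 h3
    · intro h
      change Structure.RelMap R (fun i => (ts i).realize (Sum.elim v xs)) at h
      exact ⟨fun i => ((ts i).realize (Sum.elim v xs)).1,
        fun i => (hD _).1 ((ts i).realize (Sum.elim v xs)).2,
        fun i => (tm_iff (@ι) hD @hm (ts i) _ _).2 rfl, (hm.1 R _).1 h⟩
  | imp f g hf hg => exact imp_congr (hf xs) (hg xs)
  | all f hf =>
    rw [BoundedFormula.realize_all]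
    change (∀ x, Dm (@ι) M x → fm (@ι) M f (fun a => (v a).1) (Fin.snoc (fun i => (xs i).1) x)) ↔ _
    have hs : ∀ x : {a // D a}, (Fin.snoc (fun i => (xs i).1) x.1 : Fin _ → M) =
        fun i => ((Fin.snoc xs x : Fin _ → {a // D a}) i).1 := by
      intro x
      funext i
      refine Fin.lastCases ?_ (fun j => ?_) i
      · simp
      · simp
    constructor
    · intro h x
      have h1 := h x.1 ((hD _).1 x.2)
      rw [hs x] at h1
      exact (hf _).1 h1
    · intro h x hx
      have h1 := (hf _).2 (h ⟨x, (hD _).2 hx⟩)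
      rw [← hs ⟨x, (hD _).2 hx⟩] at h1
      exact h1

end sound

end Pool.Agent.R598.IO
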