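import Pool.Agent.R598.IO.Defs
import Pool.Agent.R598.IO.Tr

/-!
# Saturation
-/

set_option autoImplicit false

namespace Pool.Agent.R598.IO

open FirstOrder FirstOrder.Language Cardinal

variable {K L : FirstOrder.Language.{0, 0}}

theorem IsSat.real {κ : Cardinal.{0}} {M : Type} [L.Structure M] (h : IsSat κ L M) {n : ℕ}
    {I : Type} {β : I → Type}
    {R : ∀ (i : I) (M : Type) [L.Structure M], (β i ⊕ Fin n → M) → Prop}
    (hR : ∀ i, UD L (R i)) (c : ∀ i, β i → M) (A : Set M) (hA : #A < κ)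
    (hc : ∀ i b, c i b ∈ A)
    (hfin : ∀ F : Set I, F.Finite → ∃ x : Fin n → M, ∀ i ∈ F, R i M (Sum.elim (c i) x)) :
    ∃ x : Fin n → M, ∀ i, R i M (Sum.elim (c i) x) := by
  classical
  choose φ hφ using hR
  let θ : I → L.Formula (A ⊕ Fin n) := fun i =>
    (φ i).relabel (Sum.elim (fun b => Sum.inl ⟨c i b, hc i b⟩) Sum.inr)
  have hθ : ∀ i (x : Fin n → M), (θ i).Realize (Sum.elim Subtype.val x) ↔
      R i M (Sum.elim (c i) x) := by
    intro i x
    rw [Formula.realize_relabel, ← hφ i M]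
    have h1 : (Sum.elim Subtype.val x ∘ Sum.elim (fun b => Sum.inl (⟨c i b, hc i b⟩ : A)) Sum.inr) =
        Sum.elim (c i) x := by
      funext b
      cases b <;> rfl
    rw [h1]
  obtain ⟨x, hx⟩ := h n A hA (Set.range θ) (by
    intro s hs hsub
    obtain ⟨F, hF, hFs⟩ : ∃ F : Set I, F.Finite ∧ s = θ '' F := by
      have h2 : ∀ t : s, ∃ i, θ i = t.1 := fun t => hsub t.2
      choose g hg using h2
      have : Finite s := hs
      refine ⟨Set.range g, Set.finite_range g, ?_⟩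
      ext t
      constructor
      · intro ht
        exact ⟨g ⟨t, ht⟩, ⟨_, rfl⟩, hg ⟨t, ht⟩⟩
      · rintro ⟨_, ⟨t', rfl⟩, rfl⟩
        rw [hg t']
        exact t'.2
    obtain ⟨x, hx⟩ := hfin F hF
    refine ⟨x, fun t ht => ?_⟩
    rw [hFs] at ht
    obtain ⟨i, hi, rfl⟩ := ht
    exact (hθ i x).2 (hx i hi))
  exact ⟨x, fun i => (hθ i x).1 (hx _ ⟨i, rfl⟩)⟩

/-- The truth of a formula without bound variables. -/
theorem ud_fm0 (ι : ∀ {n : ℕ}, Sy K n → L.Relations n) {α : Type} (φ : K.Formula α) :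
    UD L fun (M : Type) [L.Structure M] (w : α → M) => fm (@ι) M φ w Fin.elim0 := by
  refine ((ud_fm (@ι) φ).relabel (Sum.elim id Fin.elim0)).congr fun M _ w => ?_
  have h : (fun i : Fin 0 => w (Sum.elim id Fin.elim0 (Sum.inr i : α ⊕ Fin 0))) = Fin.elim0 :=
    Subsingleton.elim _ _
  rw [h]
  rfl

section

variable (ι : ∀ {n : ℕ}, Sy K n → L.Relations n) {M : Type} [L.Structure M] {D : M → Prop}
  (hD : ∀ a, D a ↔ Dm (@ι) M a) [K.Structure {a // D a}] (hm : Match (D := D) (@ι))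

include hD hm in
theorem fm0_iff {α : Type} (φ : K.Formula α) (v : α → {a // D a}) :
    fm (@ι) M φ (fun a => (v a).1) Fin.elim0 ↔ φ.Realize v := by
  have h := fm_iff (@ι) hD @hm φ v default
  have h1 : (fun i : Fin 0 => ((default : Fin 0 → {a // D a}) i).1) = Fin.elim0 :=
    Subsingleton.elim _ _
  rw [h1] at h
  exact h

include hD hm in
theorem isSat_dom {κ : Cardinal.{0}} (h : IsSat κ L M) : IsSat κ K {a // D a} := by
  intro n A hA p hp
  let R : ∀ (i : Option p) (M : Type) [L.Structure M], (A ⊕ Fin n → M) → Prop := fun i M _ w =>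
    match i with
    | none => ∀ l, Dm (@ι) M (w (Sum.inr l))
    | some φ => fm (@ι) M φ.1 w Fin.elim0
  obtain ⟨x, hx⟩ := h.real (I := Option p) (β := fun _ => A) (R := R) (by
    intro i
    cases i with
    | none => exact UD.iall fun l => ud_dm (@ι) _
    | some φ => exact ud_fm0 (@ι) φ.1) (fun _ a => a.1.1) (Subtype.val '' A)
    (mk_image_le.trans_lt hA) (fun _ a => ⟨a.1, a.2, rfl⟩) (by
    intro F hF
    obtain ⟨x, hx⟩ := hp ((fun φ : p => φ.1) '' (some ⁻¹' F))
      ((hF.preimage (Option.some_injective _).injOn).image _) (by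
        rintro _ ⟨φ, -, rfl⟩
        exact φ.2)
    refine ⟨fun l => (x l).1, fun i hi => ?_⟩
    cases i with
    | none => exact fun l => (hD _).1 (x l).2
    | some φ =>
      have h1 := (fm0_iff (@ι) hD @hm φ.1 (Sum.elim Subtype.val x)).2 (hx _ ⟨φ, hi, rfl⟩)
      have h2 : (fun a => ((Sum.elim Subtype.val x : A ⊕ Fin n → {a // D a}) a).1) =
          Sum.elim (fun a : A => a.1.1) fun l => (x l).1 := by
        funext a
        cases a <;> rfl
      rw [h2] at h1
      exact h1)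
  have hx0 : ∀ l, Dm (@ι) M (x l) := hx none
  refine ⟨fun l => ⟨x l, (hD _).2 (hx0 l)⟩, fun φ hφ => ?_⟩
  refine (fm0_iff (@ι) hD @hm φ _).1 ?_
  have h1 := hx (some ⟨φ, hφ⟩)
  have h2 : (fun a => ((Sum.elim Subtype.val (fun l => ⟨x l, (hD _).2 (hx0 l)⟩) :
      A ⊕ Fin n → {a // D a}) a).1) = Sum.elim (fun a : A => a.1.1) x := by
    funext a
    cases a <;> rfl
  rw [h2]
  exact h1

end

/-- The parameters of a formula. -/
theorem exists_nf {M : Type} [K.Structure M] {A : Set M} {n : ℕ} (φ : K.Formula (A ⊕ Fin n)) :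
    ∃ (m : ℕ) (φ0 : K.Formula (Fin m ⊕ Fin n)) (c : Fin m → A), ∀ x : Fin n → M,
      φ.Realize (Sum.elim Subtype.val x) ↔ φ0.Realize (Sum.elim (fun r => (c r).1) x) := by
  classical
  let T : Finset A := (BoundedFormula.freeVarFinset φ).toLeft
  let f : (BoundedFormula.freeVarFinset φ) → Fin T.card ⊕ Fin n := fun a =>
    match a with
    | ⟨Sum.inl a, h⟩ => Sum.inl (T.equivFin ⟨a, Finset.mem_toLeft.2 h⟩)
    | ⟨Sum.inr i, _⟩ => Sum.inr i
  refine ⟨T.card, BoundedFormula.restrictFreeVar φ f, fun r => (T.equivFin.symm r).1, fun x => ?_⟩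
  symm
  unfold Formula.Realize
  refine BoundedFormula.realize_restrictFreeVar _ ?_
  rintro ⟨a | i, h⟩
  · change ((T.equivFin.symm (T.equivFin ⟨a, Finset.mem_toLeft.2 h⟩)).1).1 = _
    rw [Equiv.symm_apply_apply]
    rfl
  · rfl

theorem card_formula {α : Type} {lam : Cardinal.{0}} (hlam : ℵ₀ < lam) (hα : #α < lam)
    (hK : K.card ≤ ℵ₀) : #(K.Formula α) < lam := by
  have h1 : #(K.Formula α) ≤ #(Σ n, K.BoundedFormula α n) :=
    mk_le_of_injective (f := fun φ => (⟨0, φ⟩ : Σ n, K.BoundedFormula α n)) fun a b h =>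
      eq_of_heq (Sigma.mk.inj h).2
  refine h1.trans_lt (BoundedFormula.card_le.trans_lt ?_)
  rw [lift_id, lift_id]
  exact max_lt hlam (add_lt_of_lt hlam.le hα (hK.trans_lt hlam))

end Pool.Agent.R598.IO
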