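import Pool.Agent.R598.IO.Sat

/-!
# Stable theories: approximation of ultrafilters by sequences
-/

set_option autoImplicit false

namespace Pool.Agent.R598.IO

open FirstOrder FirstOrder.Language Cardinal

variable {K : FirstOrder.Language.{0, 0}}

/-- The bound on the order property. -/
theorem exists_bound {T : K.Theory} (hT : ¬ Unstable T) {N : Type} [K.Structure N] [Nonempty N]
    (hN : N ⊨ T) {m n : ℕ} (φ : K.Formula (Fin m ⊕ Fin n)) :
    ∃ k : ℕ, ¬ ∃ (a : Fin k → Fin m → N) (b : Fin k → Fin n → N),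
      ∀ i j, φ.Realize (Sum.elim (a i) (b j)) ↔ i < j := by
  classical
  by_contra hcon
  push Not at hcon
  choose a b hab using hcon
  let U : Ultrafilter ℕ := Filter.hyperfilter ℕ
  obtain ⟨x0⟩ := ‹Nonempty N›
  let A : ℕ → Fin m → ∀ _ : ℕ, N := fun i l k => if h : i < k then a k ⟨i, h⟩ l else x0
  let B : ℕ → Fin n → ∀ _ : ℕ, N := fun i l k => if h : i < k then b k ⟨i, h⟩ l else x0
  have hP : (U : Filter ℕ).Product (fun _ => N) ⊨ T := by
    refine ⟨fun σ hσ => ?_⟩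
    rw [Ultraproduct.sentence_realize]
    exact Filter.Eventually.of_forall fun _ => hN.realize_of_mem σ hσ
  have : Nonempty ((U : Filter ℕ).Product fun _ => N) := ⟨((fun _ => x0 : ∀ _ : ℕ, N) :
    (U : Filter ℕ).Product fun _ => N)⟩
  apply hT
  refine ⟨m, n, φ, Theory.ModelType.of T ((U : Filter ℕ).Product fun _ => N),
    fun i l => ((A i l : ∀ _ : ℕ, N) : (U : Filter ℕ).Product fun _ => N),
    fun j l => ((B j l : ∀ _ : ℕ, N) : (U : Filter ℕ).Product fun _ => N), fun i j => ?_⟩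
  have h1 : (Sum.elim (fun l => ((A i l : ∀ _ : ℕ, N) : (U : Filter ℕ).Product fun _ => N))
      (fun l => ((B j l : ∀ _ : ℕ, N) : (U : Filter ℕ).Product fun _ => N))) =
      fun s => (((Sum.elim (A i) (B j) : Fin m ⊕ Fin n → ∀ _ : ℕ, N) s : ∀ _ : ℕ, N) :
        (U : Filter ℕ).Product fun _ => N) := by
    funext s
    cases s <;> rfl
  change φ.Realize (Sum.elim (fun l => ((A i l : ∀ _ : ℕ, N) : (U : Filter ℕ).Product fun _ => N))
      (fun l => ((B j l : ∀ _ : ℕ, N) : (U : Filter ℕ).Product fun _ => N))) ↔ i < j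
  rw [h1, Ultraproduct.realize_formula_cast φ]
  have h2 : ∀ᶠ k in (U : Filter ℕ), (φ.Realize fun s => (Sum.elim (A i) (B j) :
      Fin m ⊕ Fin n → ∀ _ : ℕ, N) s k) ↔ i < j := by
    have h3 : ∀ᶠ k in (U : Filter ℕ), max i j < k := by
      have h4 : (Filter.hyperfilter ℕ : Filter ℕ) ≤ Filter.atTop := Nat.hyperfilter_le_atTop
      exact h4 (Filter.eventually_gt_atTop (max i j))
    refine h3.mono fun k hk => ?_
    have hi : i < k := (le_max_left _ _).trans_lt hk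
    have hj : j < k := (le_max_right _ _).trans_lt hk
    have h4 : (fun s => (Sum.elim (A i) (B j) : Fin m ⊕ Fin n → ∀ _ : ℕ, N) s k) =
        Sum.elim (a k ⟨i, hi⟩) (b k ⟨j, hj⟩) := by
      funext s
      rcases s with s | s
      · change (if h : i < k then a k ⟨i, h⟩ s else x0) = a k ⟨i, hi⟩ s
        rw [dif_pos hi]
      · change (if h : j < k then b k ⟨j, h⟩ s else x0) = b k ⟨j, hj⟩ s
        rw [dif_pos hj]
    rw [h4, hab k]
    exact Iff.rfl
  constructor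
  · intro h3
    obtain ⟨k, h4, h5⟩ := (h3.and h2).exists
    exact h5.1 h4
  · intro h3
    exact h2.mono fun k hk => hk.2 h3

theorem countable_formula (hK : K.card ≤ ℵ₀) {α : Type} [Countable α] :
    Countable (K.Formula α) := by
  have h1 : #(K.Formula α) < ℵ₁ := card_formula aleph0_lt_aleph_one
    ((mk_le_aleph0 (α := α)).trans_lt aleph0_lt_aleph_one) hK
  rw [← mk_le_aleph0_iff, ← Order.lt_succ_iff, succ_aleph0]
  exact h1

theorem exists_strictMono {k k1 : ℕ} (hk : k1 ≤ k) {i : Fin k → ℕ} (hi : Function.Injective i)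
    {P : ℕ → Prop} (hP : ∀ r, P (i r)) : ∃ i' : Fin k1 → ℕ, StrictMono i' ∧ ∀ r, P (i' r) := by
  classical
  have h1 : (Finset.univ.image i).card = k := by
    rw [Finset.card_image_of_injective _ hi, Finset.card_univ, Fintype.card_fin]
  obtain ⟨s, hs, hsc⟩ := Finset.exists_subset_card_eq (s := Finset.univ.image i) (n := k1)
    (by rw [h1]; exact hk)
  refine ⟨s.orderEmbOfFin hsc, (s.orderEmbOfFin hsc).strictMono, fun r => ?_⟩
  have h2 := hs (s.orderEmbOfFin_mem hsc r)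
  obtain ⟨r', -, h3⟩ := Finset.mem_image.1 h2
  rw [← h3]
  exact hP r'

section

variable {N : Type} [K.Structure N] {n : ℕ}

/-- The formula holds for almost all tuples. -/
def Lg (q : Ultrafilter (Fin n → N)) {m : ℕ} (φ : K.Formula (Fin m ⊕ Fin n)) (c : Fin m → N) :
    Prop := {x | φ.Realize (Sum.elim c x)} ∈ q

theorem lg_not {q : Ultrafilter (Fin n → N)} {m : ℕ} {φ : K.Formula (Fin m ⊕ Fin n)}
    {c : Fin m → N} : Lg q φ.not c ↔ ¬ Lg q φ c := by
  unfold Lg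
  rw [← Ultrafilter.compl_mem_iff_notMem]
  have h : {x | (Formula.not φ).Realize (Sum.elim c x)} =
      ({x | φ.Realize (Sum.elim c x)} : Set (Fin n → N))ᶜ := by
    ext x
    exact Formula.realize_not
  rw [h]

theorem lemA [Nonempty N] (hK : K.card ≤ ℵ₀) (hsat : IsSat ℵ₁ K N)
    (hb : ∀ (m : ℕ) (φ : K.Formula (Fin m ⊕ Fin n)), ∃ k : ℕ,
      ¬ ∃ (a : Fin k → Fin m → N) (b : Fin k → Fin n → N),
        ∀ i j, φ.Realize (Sum.elim (a i) (b j)) ↔ i < j)
    (q : Ultrafilter (Fin n → N)) :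
    ∃ a : ℕ → Fin n → N, ∀ (m : ℕ) (φ : K.Formula (Fin m ⊕ Fin n)), ∃ k : ℕ, ∀ c : Fin m → N,
      (Lg q φ c → ¬ ∃ i : Fin k → ℕ, Function.Injective i ∧
        ∀ r, ¬ φ.Realize (Sum.elim c (a (i r)))) ∧
      (¬ Lg q φ c → ¬ ∃ i : Fin k → ℕ, Function.Injective i ∧
        ∀ r, φ.Realize (Sum.elim c (a (i r)))) := by
  classical
  obtain ⟨x0⟩ := ‹Nonempty N›
  have hW : ∀ (t : Σ m, K.Formula (Fin m ⊕ Fin n)) (I : List (Fin n → N)), ∃ c : Fin t.1 → N,
      (∃ c', Lg q t.2 c' ∧ ∀ z ∈ I, ¬ t.2.Realize (Sum.elim c' z)) →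
        (Lg q t.2 c ∧ ∀ z ∈ I, ¬ t.2.Realize (Sum.elim c z)) := by
    intro t I
    by_cases h : ∃ c', Lg q t.2 c' ∧ ∀ z ∈ I, ¬ t.2.Realize (Sum.elim c' z)
    · obtain ⟨c, hc⟩ := h
      exact ⟨c, fun _ => hc⟩
    · exact ⟨fun _ => x0, fun h' => absurd h' h⟩
  choose W hW using hW
  let C : List (Fin n → N) → Set N := fun l => {y | ∃ (t : Σ m, K.Formula (Fin m ⊕ Fin n))
    (I : List (Fin n → N)) (r : Fin t.1), (∀ z ∈ I, z ∈ l) ∧ y = W t I r}
  have hC : ∀ l, #(C l) < ℵ₁ := by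
    intro l
    rw [← countable_iff_lt_aleph_one]
    have : ∀ m : ℕ, Countable (K.Formula (Fin m ⊕ Fin n)) := fun m => countable_formula hK
    have h1 : C l ⊆ Set.range fun s : (Σ t : (Σ m, K.Formula (Fin m ⊕ Fin n)),
        List {z // z ∈ l} × Fin t.1) => W s.1 (s.2.1.map Subtype.val) s.2.2 := by
      rintro y ⟨t, I, r, hI, rfl⟩
      obtain ⟨I', rfl⟩ : ∃ I' : List {z // z ∈ l}, I'.map Subtype.val = I :=
        ⟨I.attach.map fun z => ⟨z.1, hI z.1 z.2⟩, by
          rw [List.map_map]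
          exact List.attach_map_subtype_val I⟩
      exact ⟨⟨t, I', r⟩, rfl⟩
    exact (Set.countable_range _).mono h1
  have hpk : ∀ l, ∃ x : Fin n → N, ∀ (m : ℕ) (φ : K.Formula (Fin m ⊕ Fin n)) (c : Fin m → N),
      (∀ r, c r ∈ C l) → (φ.Realize (Sum.elim c x) ↔ Lg q φ c) := by
    intro l
    obtain ⟨x, hx⟩ := hsat n (C l) (hC l)
      {θ | {x | θ.Realize (Sum.elim Subtype.val x)} ∈ q} (by
        intro s hs hsub
        have h1 : (⋂ θ ∈ s, {x : Fin n → N | θ.Realize (Sum.elim Subtype.val x)}) ∈ q :=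
          (Filter.biInter_mem hs).2 fun θ hθ => hsub hθ
        obtain ⟨x, hx⟩ := Ultrafilter.nonempty_of_mem h1
        exact ⟨x, fun θ hθ => Set.mem_iInter₂.1 hx θ hθ⟩)
    refine ⟨x, fun m φ c hc => ?_⟩
    have h2 : ∀ ψ : K.Formula (Fin m ⊕ Fin n), Lg q ψ c → ψ.Realize (Sum.elim c x) := by
      intro ψ hψ
      have h3 : ∀ y : Fin n → N, (ψ.relabel (Sum.elim (fun r => Sum.inl (⟨c r, hc r⟩ : C l))
          Sum.inr)).Realize (Sum.elim Subtype.val y) ↔ ψ.Realize (Sum.elim c y) := by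
        intro y
        rw [Formula.realize_relabel]
        have h4 : (Sum.elim Subtype.val y ∘
            Sum.elim (fun r => Sum.inl (⟨c r, hc r⟩ : C l)) Sum.inr) = Sum.elim c y := by
          funext s
          cases s <;> rfl
        rw [h4]
      refine (h3 x).1 (hx _ ?_)
      change {y | _} ∈ q
      have h5 : {y : Fin n → N | (ψ.relabel (Sum.elim (fun r => Sum.inl (⟨c r, hc r⟩ : C l))
          Sum.inr)).Realize (Sum.elim Subtype.val y)} = {y | ψ.Realize (Sum.elim c y)} := by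
        ext y
        exact h3 y
      rw [h5]
      exact hψ
    constructor
    · intro h3
      by_contra h4
      exact Formula.realize_not.1 (h2 φ.not (lg_not.2 h4)) h3
    · exact h2 φ
  choose pk hpk using hpk
  let Ls : ℕ → List (Fin n → N) := fun k => Nat.rec [] (fun _ l => pk l :: l) k
  have hLs : ∀ i k, i < k → pk (Ls i) ∈ Ls k := by
    intro i k hik
    induction k with
    | zero => omega
    | succ k ih =>
      change pk (Ls i) ∈ pk (Ls k) :: Ls k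
      rcases Nat.lt_succ_iff_lt_or_eq.1 hik with h | rfl
      · exact List.mem_cons_of_mem _ (ih h)
      · exact List.mem_cons_self
  have key : ∀ (m : ℕ) (φ : K.Formula (Fin m ⊕ Fin n)) (k : ℕ),
      (¬ ∃ (a : Fin k → Fin m → N) (b : Fin k → Fin n → N),
        ∀ i j, φ.Realize (Sum.elim (a i) (b j)) ↔ i < j) → ∀ c, Lg q φ c →
      ∀ i : Fin k → ℕ, StrictMono i → ¬ ∀ r, ¬ φ.Realize (Sum.elim c (pk (Ls (i r)))) := by
    intro m φ k hk c hc i hi h
    let I : Fin k → List (Fin n → N) := fun j =>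
      ((List.finRange k).filter (· ≤ j)).map fun r => pk (Ls (i r))
    have hI : ∀ j z, z ∈ I j ↔ ∃ r ≤ j, z = pk (Ls (i r)) := by
      intro j z
      simp only [I, List.mem_map, List.mem_filter, List.mem_finRange, true_and,
        decide_eq_true_eq]
      exact ⟨fun ⟨r, h1, h2⟩ => ⟨r, h1, h2.symm⟩, fun ⟨r, h1, h2⟩ => ⟨r, h1, h2.symm⟩⟩
    have hW' : ∀ j, Lg q φ (W ⟨m, φ⟩ (I j)) ∧
        ∀ z ∈ I j, ¬ φ.Realize (Sum.elim (W ⟨m, φ⟩ (I j)) z) := by
      intro j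
      refine hW ⟨m, φ⟩ (I j) ⟨c, hc, fun z hz => ?_⟩
      obtain ⟨r, -, rfl⟩ := (hI j z).1 hz
      exact h r
    apply hk
    refine ⟨fun j => W ⟨m, φ⟩ (I j), fun r => pk (Ls (i r)), fun j r => ⟨fun h1 => ?_,
      fun h1 => ?_⟩⟩
    · by_contra h2
      exact (hW' j).2 _ ((hI j _).2 ⟨r, not_lt.1 h2, rfl⟩) h1
    · refine (hpk (Ls (i r)) m φ (W ⟨m, φ⟩ (I j)) fun s => ?_).2 (hW' j).1
      refine ⟨⟨m, φ⟩, I j, s, fun z hz => ?_, rfl⟩
      obtain ⟨r', hr', rfl⟩ := (hI j z).1 hz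
      exact hLs _ _ (hi (hr'.trans_lt h1))
  refine ⟨fun k => pk (Ls k), fun m φ => ?_⟩
  obtain ⟨k1, hk1⟩ := hb m φ
  obtain ⟨k2, hk2⟩ := hb m φ.not
  refine ⟨max k1 k2, fun c => ⟨fun hc => ?_, fun hc => ?_⟩⟩
  · rintro ⟨i, hi, h⟩
    obtain ⟨i', hi', h'⟩ := exists_strictMono (le_max_left k1 k2) hi
      (P := fun s => ¬ φ.Realize (Sum.elim c (pk (Ls s)))) h
    exact key m φ k1 hk1 c hc i' hi' h'
  · rintro ⟨i, hi, h⟩
    obtain ⟨i', hi', h'⟩ := exists_strictMono (le_max_right k1 k2) hi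
      (P := fun s => φ.Realize (Sum.elim c (pk (Ls s)))) h
    refine key m φ.not k2 hk2 c (lg_not.2 hc) i' hi' fun r hr => ?_
    exact Formula.realize_not.1 hr (h' r)

end

end Pool.Agent.R598.IO
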