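import Pool.Agent.R598.IO.Good

/-!
# Standard numbers, and the number of numbers below a nonstandard number
-/

set_option autoImplicit false

namespace Pool.Agent.R598.IO

open FirstOrder FirstOrder.Language Cardinal

variable {K₀ K₁ L : FirstOrder.Language.{0, 0}} {ι₀ : ∀ {n : ℕ}, Sy K₀ n → L.Relations n}
  {ι₁ : ∀ {n : ℕ}, Sy K₁ n → L.Relations n} {ι₂ : ∀ {n : ℕ}, SC n → L.Relations n}
  {T₀ : K₀.Theory} {T₁ : K₁.Theory} {m n : ℕ} {ψ : K₁.Formula (Fin m ⊕ Fin n)} {M : Type}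
  [L.Structure M]

/-- The properties of the standard numbers. -/
structure IsNu (ι₂ : ∀ {n : ℕ}, SC n → L.Relations n) (M : Type) [L.Structure M] (ν : ℕ → M) :
    Prop where
  nm : ∀ k, Nm (@ι₂) M (ν k)
  lt : ∀ i j, Lt (@ι₂) M (ν i) (ν j) ↔ i < j
  inj : Function.Injective ν
  below : ∀ k z, Lt (@ι₂) M z (ν k) → ∃ i < k, z = ν i

theorem GoodStr.exists_nu (h : GoodStr (@ι₀) (@ι₁) (@ι₂) T₀ T₁ ψ M) :
    ∃ ν : ℕ → M, IsNu (@ι₂) M ν := by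
  obtain ⟨x0, hx0, hx0'⟩ := h.zero
  choose sc hsc1 hsc2 using h.succ
  let ν' : ℕ → {x // Nm (@ι₂) M x} := fun k => Nat.rec ⟨x0, hx0⟩
    (fun _ x => ⟨sc x.1 x.2, (h.ltn _ _ (hsc1 x.1 x.2)).2⟩) k
  have h1 : ∀ k, Lt (@ι₂) M (ν' k).1 (ν' (k + 1)).1 := fun k => hsc1 _ _
  have h2 : ∀ k z, Lt (@ι₂) M z (ν' (k + 1)).1 → Lt (@ι₂) M z (ν' k).1 ∨ z = (ν' k).1 :=
    fun k => hsc2 _ _
  have h3 : ∀ i j, i < j → Lt (@ι₂) M (ν' i).1 (ν' j).1 := by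
    intro i j hij
    induction j with
    | zero => omega
    | succ j ih =>
      rcases Nat.lt_succ_iff_lt_or_eq.1 hij with h4 | rfl
      · exact h.trans _ _ _ (ih h4) (h1 j)
      · exact h1 i
  have h4 : ∀ i j, Lt (@ι₂) M (ν' i).1 (ν' j).1 ↔ i < j := by
    intro i j
    refine ⟨fun h5 => ?_, h3 i j⟩
    by_contra h6
    rcases lt_or_eq_of_le (not_lt.1 h6) with h7 | rfl
    · exact h.irr _ (h.trans _ _ _ h5 (h3 _ _ h7))
    · exact h.irr _ h5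
  refine ⟨fun k => (ν' k).1, fun k => (ν' k).2, h4, fun i j hij => ?_, fun k z hz => ?_⟩
  · have hij' : (ν' i).1 = (ν' j).1 := hij
    rcases lt_trichotomy i j with h5 | h5 | h5
    · have h6 := h3 _ _ h5
      rw [hij'] at h6
      exact absurd h6 (h.irr _)
    · exact h5
    · have h6 := h3 _ _ h5
      rw [hij'] at h6
      exact absurd h6 (h.irr _)
  · induction k with
    | zero => exact absurd hz (hx0' z)
    | succ k ih =>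
      rcases h2 k z hz with h5 | h5
      · obtain ⟨i, hi, rfl⟩ := ih h5
        exact ⟨i, hi.trans (Nat.lt_succ_self k), rfl⟩
      · exact ⟨k, Nat.lt_succ_self k, h5⟩

theorem GoodStr.nu_lt (h : GoodStr (@ι₀) (@ι₁) (@ι₂) T₀ T₁ ψ M) {ν : ℕ → M}
    (hν : IsNu (@ι₂) M ν) {x : M} (hx : Nm (@ι₂) M x) (hx' : ∀ k, x ≠ ν k) (k : ℕ) :
    Lt (@ι₂) M (ν k) x := by
  rcases h.tot _ _ (hν.nm k) hx with h1 | h1 | h1
  · exact h1
  · exact absurd h1.symm (hx' k)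
  · obtain ⟨i, -, h2⟩ := hν.below k x h1
    exact absurd h2 (hx' i)

/-- A nonstandard number has a nonstandard predecessor. -/
theorem GoodStr.pred' (h : GoodStr (@ι₀) (@ι₁) (@ι₂) T₀ T₁ ψ M) {ν : ℕ → M}
    (hν : IsNu (@ι₂) M ν) {x : M} (hx : ∀ k, Lt (@ι₂) M (ν k) x) :
    ∃ y, Lt (@ι₂) M y x ∧ ∀ k, Lt (@ι₂) M (ν k) y := by
  obtain ⟨y, h1, h2⟩ := h.pred x ⟨_, hx 0⟩
  refine ⟨y, h1, h.nu_lt hν (h.ltn _ _ h1).1 fun k hk => ?_⟩
  subst hk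
  rcases h2 _ (hx (k + 1)) with h3 | h3
  · exact absurd ((hν.lt _ _).1 h3) (by omega)
  · have := hν.inj h3
    omega

/-- If the second structure is saturated, then there are many numbers below each nonstandard
number. -/
theorem GoodStr.lemB (h : GoodStr (@ι₀) (@ι₁) (@ι₂) T₀ T₁ ψ M) {ν : ℕ → M}
    (hν : IsNu (@ι₂) M ν) {D : M → Prop} (hD : ∀ a, D a ↔ Dm (@ι₁) M a)
    [K₁.Structure {a // D a}] (hm : Match (D := D) (@ι₁)) {lam : Cardinal.{0}} (hlam : ℵ₀ ≤ lam)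
    (hsat : IsSat lam K₁ {a // D a}) {H : M} (hH : ∀ k, Lt (@ι₂) M (ν k) H) :
    lam ≤ #{j // Lt (@ι₂) M j H} := by
  classical
  by_contra hcard
  have hcard' : #{j // Lt (@ι₂) M j H} < lam := not_le.1 hcard
  obtain ⟨a, b, hab⟩ := h.ord
  have hX : ∀ i : {i // Nm (@ι₂) M i}, ∃ x : Fin m → {a // D a},
      ∀ l, Ev (@ι₂) M (a l) i.1 (x l).1 := by
    intro i
    obtain ⟨x, y, h1, -, -⟩ := hab i.1 i.1 i.2 i.2
    exact ⟨fun l => ⟨x l, (hD _).2 (h1 l).1⟩, fun l => (h1 l).2⟩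
  have hY : ∀ i : {i // Nm (@ι₂) M i}, ∃ y : Fin n → {a // D a},
      ∀ l, Ev (@ι₂) M (b l) i.1 (y l).1 := by
    intro i
    obtain ⟨x, y, -, h1, -⟩ := hab i.1 i.1 i.2 i.2
    exact ⟨fun l => ⟨y l, (hD _).2 (h1 l).1⟩, fun l => (h1 l).2⟩
  choose X hX using hX
  choose Y hY using hY
  have hXY : ∀ i j, ψ.Realize (Sum.elim (X i) (Y j)) ↔ Lt (@ι₂) M i.1 j.1 := by
    intro i j
    obtain ⟨x, y, h1, h2, h3⟩ := hab i.1 j.1 i.2 j.2
    rw [← h3, ← fm0_iff (@ι₁) hD @hm]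
    have h4 : x = fun l => (X i l).1 := by
      funext l
      exact h.evf _ _ _ _ (h1 l).2 (hX i l)
    have h5 : y = fun l => (Y j l).1 := by
      funext l
      exact h.evf _ _ _ _ (h2 l).2 (hY j l)
    have h6 : (fun s => ((Sum.elim (X i) (Y j)) s).1) = Sum.elim x y := by
      funext s
      rw [h4, h5]
      cases s <;> rfl
    rw [h6]
  -- the type
  have hfin : ∀ j : {j // Lt (@ι₂) M j H}, Nm (@ι₂) M j.1 := fun j => (h.ltn _ _ j.2).1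
  let A : Set {a // D a} := Set.range fun s : {j // Lt (@ι₂) M j H} × Fin n =>
    Y ⟨s.1.1, hfin s.1⟩ s.2
  have hA : #A < lam := by
    refine mk_range_le.trans_lt ?_
    rw [mk_prod, lift_id, lift_id]
    exact mul_lt_of_lt hlam hcard' ((lt_aleph0_of_finite _).trans_le hlam)
  let θ : {j // Lt (@ι₂) M j H} → K₁.Formula (A ⊕ Fin m) := fun j =>
    ψ.relabel (Sum.elim Sum.inr fun l => Sum.inl ⟨Y ⟨j.1, hfin j⟩ l, ⟨(j, l), rfl⟩⟩)
  have hθ : ∀ (j : {j // Lt (@ι₂) M j H}) (x : Fin m → {a // D a}),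
      (θ j).Realize (Sum.elim Subtype.val x) ↔
      ψ.Realize (Sum.elim x (Y ⟨j.1, hfin j⟩)) := by
    intro j x
    rw [Formula.realize_relabel]
    have h1 : (Sum.elim Subtype.val x ∘ (Sum.elim Sum.inr fun l =>
        Sum.inl (⟨Y ⟨j.1, hfin j⟩ l, ⟨(j, l), rfl⟩⟩ : A))) = Sum.elim x (Y ⟨j.1, hfin j⟩) := by
      funext s
      cases s <;> rfl
    rw [h1]
  let σ : {j // Lt (@ι₂) M j H} → K₁.Formula (A ⊕ Fin m) := fun j =>
    if ∃ k, j.1 = ν k then (θ j).not else θ j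
  obtain ⟨x, hx⟩ := hsat m A hA (Set.range σ) (by
    intro s hs hsub
    have h2 : ∀ t : s, ∃ j, σ j = t.1 := fun t => hsub t.2
    choose g hg using h2
    have hsf : Finite s := hs
    obtain ⟨k0, hk0⟩ : ∃ k0 : ℕ, ∀ t : s, ∀ k, (g t).1 = ν k → k ≤ k0 := by
      have h3 : ∀ t : s, ∃ k0 : ℕ, ∀ k, (g t).1 = ν k → k ≤ k0 := by
        intro t
        by_cases h4 : ∃ k, (g t).1 = ν k
        · obtain ⟨k, hk⟩ := h4
          exact ⟨k, fun k' hk' => (hν.inj (hk'.symm.trans hk)).le⟩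
        · exact ⟨0, fun k hk => absurd ⟨k, hk⟩ h4⟩
      choose k1 hk1 using h3
      obtain ⟨k0, hk0⟩ := (Set.finite_range k1).bddAbove
      exact ⟨k0, fun t k hk => (hk1 t k hk).trans (hk0 ⟨t, rfl⟩)⟩
    refine ⟨X ⟨ν k0, hν.nm k0⟩, fun t ht => ?_⟩
    have h3 := hg ⟨t, ht⟩
    change _ = t at h3
    rw [← h3]
    by_cases h4 : ∃ k, (g ⟨t, ht⟩).1 = ν k
    · simp only [σ]
      rw [if_pos h4, Formula.realize_not, hθ, hXY]
      obtain ⟨k, hk⟩ := h4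
      change ¬ Lt (@ι₂) M (ν k0) (g ⟨t, ht⟩).1
      rw [hk, hν.lt]
      exact not_lt.2 (hk0 _ k hk)
    · simp only [σ]
      rw [if_neg h4, hθ, hXY]
      exact h.nu_lt hν (hfin _) (fun k hk => h4 ⟨k, hk⟩) k0)
  have hx1 : ∀ (j : {i // Nm (@ι₂) M i}), Lt (@ι₂) M j.1 H → (∀ k, j.1 ≠ ν k) →
      ψ.Realize (Sum.elim x (Y j)) := by
    intro j hj hk
    have h1 := hx _ ⟨⟨j.1, hj⟩, rfl⟩
    simp only [σ] at h1
    rw [if_neg (fun ⟨k, hk'⟩ => hk k hk'), hθ] at h1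
    exact h1
  have hx2 : ∀ k, ¬ ψ.Realize (Sum.elim x (Y ⟨ν k, hν.nm k⟩)) := by
    intro k
    have h1 := hx _ ⟨⟨ν k, hH k⟩, rfl⟩
    simp only [σ] at h1
    rw [if_pos ⟨k, rfl⟩, Formula.realize_not, hθ] at h1
    exact h1
  -- the definable set
  let R : ∀ (M : Type) [L.Structure M], ((Fin m ⊕ Fin n ⊕ Unit) ⊕ Unit → M) → Prop :=
    fun M _ w => Lt (@ι₂) M (w (Sum.inr ())) (w (Sum.inl (Sum.inr (Sum.inr ())))) ∧
      ∃ y : Fin n → M, (∀ l, Dm (@ι₁) M (y l) ∧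
        Ev (@ι₂) M (w (Sum.inl (Sum.inr (Sum.inl l)))) (w (Sum.inr ())) (y l)) ∧
        fm (@ι₁) M ψ (Sum.elim (fun r => w (Sum.inl (Sum.inl r))) y) Fin.elim0
  have hR : UD L R := by
    refine UD.and (ud_lt _ _ _) (UD.exT (UD.and (UD.iall fun l => UD.and (ud_dm _ _)
      (ud_ev _ _ _ _)) ?_))
    exact ud_fm2 _ ψ _ _
  let v : Fin m ⊕ Fin n ⊕ Unit → M := Sum.elim (fun r => (x r).1) (Sum.elim b fun _ => H)
  have hRv : ∀ j : {i // Nm (@ι₂) M i}, R M (Sum.elim v fun _ => j.1) ↔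
      Lt (@ι₂) M j.1 H ∧ ψ.Realize (Sum.elim x (Y j)) := by
    intro j
    change (Lt (@ι₂) M j.1 H ∧ ∃ y : Fin n → M, (∀ l, Dm (@ι₁) M (y l) ∧
        Ev (@ι₂) M (b l) j.1 (y l)) ∧
        fm (@ι₁) M ψ (Sum.elim (fun r => (x r).1) y) Fin.elim0) ↔ _
    refine and_congr_right fun _ => ?_
    rw [← fm0_iff (@ι₁) hD @hm]
    have h6 : (fun s => ((Sum.elim x (Y j)) s).1) =
        Sum.elim (fun r => (x r).1) fun l => (Y j l).1 := by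
      funext s
      cases s <;> rfl
    rw [h6]
    constructor
    · rintro ⟨y, h1, h2⟩
      have h3 : y = fun l => (Y j l).1 := by
        funext l
        exact h.evf _ _ _ _ (h1 l).2 (hY j l)
      rw [← h3]
      exact h2
    · intro h1
      exact ⟨_, fun l => ⟨(hD _).1 (Y j l).2, hY j l⟩, h1⟩
  obtain ⟨j0, hj0, hj0'⟩ := h.pred' hν hH
  have hns : ∀ {j : M}, (∀ k, Lt (@ι₂) M (ν k) j) → ∀ k, j ≠ ν k := by
    intro j hj k hk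
    have h1 := hj k
    rw [hk] at h1
    exact h.irr _ h1
  obtain ⟨j1, ⟨hj1, hj1'⟩, hj1''⟩ := h.lnp hR v ⟨j0, (h.ltn _ _ hj0).1,
    (hRv ⟨j0, (h.ltn _ _ hj0).1⟩).2 ⟨hj0, hx1 ⟨j0, (h.ltn _ _ hj0).1⟩ hj0 (hns hj0')⟩⟩
  have h1 := (hRv ⟨j1, hj1⟩).1 hj1'
  have h2 : ∀ k, Lt (@ι₂) M (ν k) j1 := by
    refine h.nu_lt hν hj1 fun k hk => ?_
    subst hk
    exact hx2 k h1.2
  obtain ⟨j2, hj2, hj2'⟩ := h.pred' hν h2
  have h3 : Lt (@ι₂) M j2 H := h.trans _ _ _ hj2 h1.1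
  exact hj1'' j2 hj2 ((hRv ⟨j2, (h.ltn _ _ hj2).1⟩).2
    ⟨h3, hx1 ⟨j2, (h.ltn _ _ hj2).1⟩ h3 (hns hj2')⟩)

end Pool.Agent.R598.IO
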