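import Mathlib

/-!
# Uniformly definable relations
-/

set_option autoImplicit false

namespace Pool.Agent.R598.IO

open FirstOrder FirstOrder.Language Cardinal

variable {L : FirstOrder.Language.{0, 0}}

/-- The relation is defined by the same formula in all structures. -/
def UD (L : FirstOrder.Language.{0, 0}) {α : Type} (R : ∀ (M : Type) [L.Structure M], (α → M) → Prop) :
    Prop :=
  ∃ φ : L.Formula α, ∀ (M : Type) [L.Structure M] (v : α → M), φ.Realize v ↔ R M v

namespace UD

variable {α β : Type} {R S : ∀ (M : Type) [L.Structure M], (α → M) → Prop}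

theorem congr (h : UD L R) (h' : ∀ (M : Type) [L.Structure M] (v : α → M), R M v ↔ S M v) :
    UD L S := by
  obtain ⟨φ, hφ⟩ := h
  exact ⟨φ, fun M _ v => (hφ M v).trans (h' M v)⟩

theorem not (h : UD L R) : UD L fun (M : Type) [L.Structure M] (v : α → M) => ¬ R M v := by
  obtain ⟨φ, hφ⟩ := h
  exact ⟨φ.not, fun M _ v => by rw [Formula.realize_not, hφ]⟩

theorem and (h : UD L R) (h' : UD L S) :
    UD L fun (M : Type) [L.Structure M] (v : α → M) => R M v ∧ S M v := by
  obtain ⟨φ, hφ⟩ := h
  obtain ⟨ψ, hψ⟩ := h'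
  exact ⟨φ ⊓ ψ, fun M _ v => by rw [Formula.realize_inf, hφ, hψ]⟩

theorem imp (h : UD L R) (h' : UD L S) :
    UD L fun (M : Type) [L.Structure M] (v : α → M) => R M v → S M v := by
  obtain ⟨φ, hφ⟩ := h
  obtain ⟨ψ, hψ⟩ := h'
  exact ⟨φ.imp ψ, fun M _ v => by rw [Formula.realize_imp, hφ, hψ]⟩

theorem or (h : UD L R) (h' : UD L S) :
    UD L fun (M : Type) [L.Structure M] (v : α → M) => R M v ∨ S M v :=
  (h.not.imp h').congr fun M _ v => by tauto

theorem iff (h : UD L R) (h' : UD L S) :
    UD L fun (M : Type) [L.Structure M] (v : α → M) => (R M v ↔ S M v) :=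
  ((h.imp h').and (h'.imp h)).congr fun M _ v => by tauto

theorem relabel (h : UD L R) (g : α → β) :
    UD L fun (M : Type) [L.Structure M] (v : β → M) => R M fun a => v (g a) := by
  obtain ⟨φ, hφ⟩ := h
  exact ⟨φ.relabel g, fun M _ v => by rw [Formula.realize_relabel, hφ]; rfl⟩

theorem exT [Finite β] {Q : ∀ (M : Type) [L.Structure M], (β → M) → (α → M) → Prop}
    (h : UD L fun (M : Type) [L.Structure M] (w : α ⊕ β → M) =>
      Q M (fun b => w (Sum.inr b)) fun a => w (Sum.inl a)) :
    UD L fun (M : Type) [L.Structure M] (v : α → M) => ∃ x : β → M, Q M x v := by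
  obtain ⟨φ, hφ⟩ := h
  exact ⟨φ.iExs β, fun M _ v => by
    rw [Formula.realize_iExs]
    exact exists_congr fun x => hφ M _⟩

theorem allT [Finite β] {Q : ∀ (M : Type) [L.Structure M], (β → M) → (α → M) → Prop}
    (h : UD L fun (M : Type) [L.Structure M] (w : α ⊕ β → M) =>
      Q M (fun b => w (Sum.inr b)) fun a => w (Sum.inl a)) :
    UD L fun (M : Type) [L.Structure M] (v : α → M) => ∀ x : β → M, Q M x v := by
  obtain ⟨φ, hφ⟩ := h
  exact ⟨φ.iAlls β, fun M _ v => by
    rw [Formula.realize_iAlls]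
    exact forall_congr' fun x => hφ M _⟩

theorem ex {Q : ∀ (M : Type) [L.Structure M], M → (α → M) → Prop}
    (h : UD L fun (M : Type) [L.Structure M] (w : α ⊕ Unit → M) =>
      Q M (w (Sum.inr ())) fun a => w (Sum.inl a)) :
    UD L fun (M : Type) [L.Structure M] (v : α → M) => ∃ x : M, Q M x v :=
  (exT (Q := fun (M : Type) [L.Structure M] (x : Unit → M) v => Q M (x ()) v) h).congr
    fun M _ v => ⟨fun ⟨x, hx⟩ => ⟨x (), hx⟩, fun ⟨x, hx⟩ => ⟨fun _ => x, hx⟩⟩

theorem all {Q : ∀ (M : Type) [L.Structure M], M → (α → M) → Prop}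
    (h : UD L fun (M : Type) [L.Structure M] (w : α ⊕ Unit → M) =>
      Q M (w (Sum.inr ())) fun a => w (Sum.inl a)) :
    UD L fun (M : Type) [L.Structure M] (v : α → M) => ∀ x : M, Q M x v :=
  (allT (Q := fun (M : Type) [L.Structure M] (x : Unit → M) v => Q M (x ()) v) h).congr
    fun M _ v => ⟨fun h x => h fun _ => x, fun h x => h (x ())⟩

theorem iall {ι : Type} [Finite ι] {Q : ι → ∀ (M : Type) [L.Structure M], (α → M) → Prop}
    (h : ∀ i, UD L (Q i)) :
    UD L fun (M : Type) [L.Structure M] (v : α → M) => ∀ i, Q i M v := by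
  choose φ hφ using h
  exact ⟨Formula.iInf φ, fun M _ v => by
    unfold Formula.Realize Formula.iInf
    rw [BoundedFormula.realize_iInf]
    exact forall_congr' fun i => hφ i M v⟩

theorem eq (a b : α) : UD L fun (M : Type) [L.Structure M] (v : α → M) => v a = v b :=
  ⟨(Term.var a).equal (Term.var b), fun M _ v => by
    rw [Formula.realize_equal]
    rfl⟩

theorem rel {n : ℕ} (r : L.Relations n) (g : Fin n → α) :
    UD L fun (M : Type) [L.Structure M] (v : α → M) => Structure.RelMap r fun i => v (g i) :=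
  ⟨r.formula fun i => Term.var (g i), fun M _ v => by
    rw [Formula.realize_rel]
    rfl⟩

theorem fls : UD L fun (M : Type) [L.Structure M] (_ : α → M) => False :=
  ⟨⊥, fun M _ v => Iff.rfl⟩

/-- A closed statement holds in the structure if it holds in the other one. -/
theorem transfer {R : ∀ (M : Type) [L.Structure M], (Empty → M) → Prop} (h : UD L R)
    {M N : Type} [L.Structure M] [L.Structure N] (hMN : M ⊨ L.completeTheory N)
    (hN : R N Empty.elim) : R M Empty.elim := by
  obtain ⟨φ, hφ⟩ := h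
  have h1 : φ.Realize (Empty.elim : Empty → N) := (hφ N _).2 hN
  have h2 : N ⊨ (φ : L.Sentence) := by
    have h3 : (default : Empty → N) = Empty.elim := Subsingleton.elim _ _
    unfold Sentence.Realize
    rw [h3]
    exact h1
  have h4 : M ⊨ (φ : L.Sentence) := hMN.realize_of_mem φ h2
  have h5 : (default : Empty → M) = Empty.elim := Subsingleton.elim _ _
  unfold Sentence.Realize at h4
  rw [h5] at h4
  exact (hφ M _).1 h4

end UD

end Pool.Agent.R598.IO
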